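import Mathlib

/-!
# Real-valued signed angles in the plane

`An a b c` is the signed angle at `a` from `b` to `c`, with values in `(-π, π]`.
-/

set_option autoImplicit false

namespace Pool.Agent.Helper50Bend

open Complex Set Real

/-- the signed angle at `a` from `b` to `c` -/
noncomputable def An (a b c : ℂ) : ℝ := arg ((c - a) / (b - a))

theorem eq_of_angle_eq {x y : ℝ} (h : (x : Real.Angle) = (y : Real.Angle))
    (h1 : |x - y| < 2 * π) : x = y := by
  rw [Real.Angle.angle_eq_iff_two_pi_dvd_sub] at h
  obtain ⟨k, hk⟩ := h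
  rw [hk, abs_mul, abs_of_pos Real.two_pi_pos] at h1
  have h2 : |(k : ℝ)| < 1 := by
    have hp := Real.two_pi_pos
    by_contra hcon
    push Not at hcon
    nlinarith
  have h3 : k = 0 := by
    rw [← Int.abs_lt_one_iff]
    exact_mod_cast h2
  rw [h3] at hk
  simp at hk
  linarith

/-- a continuous function on `[0,1]` that is constant modulo `2π` is constant -/
theorem const_of_angle {f : ℝ → ℝ} (hf : ContinuousOn f (Icc 0 1))
    (h : ∀ s ∈ Icc (0:ℝ) 1, ((f s : ℝ) : Real.Angle) = ((f 0 : ℝ) : Real.Angle)) : f 1 = f 0 := by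
  have key : ∀ (g : ℝ → ℝ), ContinuousOn g (Icc 0 1) →
      (∀ s ∈ Icc (0:ℝ) 1, ∃ k : ℤ, g s - g 0 = 2 * π * k) → g 1 ≤ g 0 := by
    intro g hg hk
    by_contra hcon
    push Not at hcon
    obtain ⟨k, hk1⟩ := hk 1 (by simp)
    have hkpos : 0 < (k : ℝ) := by
      have hp := Real.two_pi_pos
      by_contra hc
      push Not at hc
      nlinarith
    have hk2 : (1 : ℝ) ≤ k := by exact_mod_cast hkpos
    have hmem : g 0 + π ∈ Icc (g 0) (g 1) := by
      constructor
      · linarith [Real.pi_pos]
      · have : g 1 = g 0 + 2 * π * k := by linarith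
        rw [this]
        nlinarith [Real.pi_pos]
    obtain ⟨s, hs, hs2⟩ := intermediate_value_Icc (by norm_num : (0:ℝ) ≤ 1) hg hmem
    obtain ⟨k', hk'⟩ := hk s hs
    rw [hs2] at hk'
    have h5 : π * (2 * k' - 1) = 0 := by linarith
    have h6 : (2 * (k' : ℝ) - 1) = 0 := by
      rcases mul_eq_zero.1 h5 with h | h
      · exact absurd h Real.pi_ne_zero
      · exact h
    have h7 : (2 * k' - 1 : ℤ) = 0 := by exact_mod_cast h6
    omega
  have hk : ∀ s ∈ Icc (0:ℝ) 1, ∃ k : ℤ, f s - f 0 = 2 * π * k := by
    intro s hs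
    exact Real.Angle.angle_eq_iff_two_pi_dvd_sub.1 (h s hs)
  apply le_antisymm (key f hf hk)
  have h2 := key (fun s => - f s) hf.neg (by
    intro s hs
    obtain ⟨k, hk⟩ := hk s hs
    exact ⟨-k, by push_cast; linarith⟩)
  linarith

theorem slit_of_notMem {x c d : ℂ} (h : x ∉ segment ℝ c d) : (d - x) / (c - x) ∈ slitPlane := by
  have hc : c - x ≠ 0 := by
    intro h0
    apply h
    have : x = c := by linear_combination -h0
    rw [this]
    exact left_mem_segment ℝ c d
  rw [Complex.mem_slitPlane_iff_not_le_zero]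
  intro hle
  apply h
  set w := (d - x) / (c - x) with hw
  have him : w.im = 0 := by
    have := (Complex.le_def.1 hle).2
    simpa using this
  have hre : w.re ≤ 0 := by
    have := (Complex.le_def.1 hle).1
    simpa using this
  have hwr : w = (w.re : ℂ) := by
    apply Complex.ext
    · simp
    · simpa using him
  have hd : d - x = w.re * (c - x) := by
    rw [← hwr, hw, div_mul_cancel₀ _ hc]
  have hr : 0 < 1 - w.re := by linarith
  have hr' : ((1 - w.re : ℝ) : ℂ) ≠ 0 := by exact_mod_cast hr.ne'
  refine ⟨(-w.re) / (1 - w.re), 1 / (1 - w.re), by apply div_nonneg <;> linarith, by positivity, ?_, ?_⟩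
  · field_simp
    ring
  · rw [Complex.real_smul, Complex.real_smul]
    push_cast
    push_cast at hr'
    field_simp
    linear_combination hd

theorem An_lt {a b c : ℂ} (h : a ∉ segment ℝ b c) : |An a b c| < π := by
  have h1 := slit_of_notMem h
  unfold An
  rw [abs_lt]
  refine ⟨Complex.neg_pi_lt_arg _, ?_⟩
  exact lt_of_le_of_ne (Complex.arg_le_pi _) (Complex.mem_slitPlane_iff_arg.1 h1).1

theorem An_swap {a b c : ℂ} (h : a ∉ segment ℝ b c) : An a c b = - An a b c := by
  have h1 := slit_of_notMem h
  unfold An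
  rw [← inv_div, Complex.arg_inv, if_neg (Complex.mem_slitPlane_iff_arg.1 h1).1]

theorem An_angle {a b c : ℂ} (hb : b ≠ a) (hc : c ≠ a) :
    ((An a b c : ℝ) : Real.Angle) = (arg (c - a) : Real.Angle) - (arg (b - a) : Real.Angle) := by
  unfold An
  exact Complex.arg_div_coe_angle (sub_ne_zero.2 hc) (sub_ne_zero.2 hb)

theorem arg_sub_swap {a b : ℂ} (h : a ≠ b) :
    ((arg (a - b) : ℝ) : Real.Angle) = (arg (b - a) : Real.Angle) + (π : Real.Angle) := by
  rw [← neg_sub b a]
  exact Complex.arg_neg_coe_angle (sub_ne_zero.2 h.symm)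

theorem ne_of_notMem_left {x c d : ℂ} (h : x ∉ segment ℝ c d) : x ≠ c := by
  rintro rfl
  exact h (left_mem_segment ℝ _ _)

theorem ne_of_notMem_right {x c d : ℂ} (h : x ∉ segment ℝ c d) : x ≠ d := by
  rintro rfl
  exact h (right_mem_segment ℝ _ _)

/-- The main identity: for disjoint segments `[a,b]` and `[c,d]` the two ways of turning the
direction `c - a` into the direction `d - b` have the same total angle. -/
theorem quad {a b c d : ℂ} (h : Disjoint (segment ℝ a b) (segment ℝ c d)) :
    An a c d + An d a b = An b c d + An c a b := by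
  have hx : ∀ s ∈ Icc (0:ℝ) 1, AffineMap.lineMap a b s ∈ segment ℝ a b := by
    intro s hs
    rw [segment_eq_image_lineMap]
    exact ⟨s, hs, rfl⟩
  have hx1 : ∀ s ∈ Icc (0:ℝ) 1, (AffineMap.lineMap a b s : ℂ) ∉ segment ℝ c d := by
    intro s hs hmem
    exact Set.disjoint_left.1 h (hx s hs) hmem
  have hcm : c ∉ segment ℝ a b := fun hm => Set.disjoint_left.1 h hm (left_mem_segment ℝ c d)
  have hdm : d ∉ segment ℝ a b := fun hm => Set.disjoint_left.1 h hm (right_mem_segment ℝ c d)
  have hsub : ∀ s ∈ Icc (0:ℝ) 1, segment ℝ a (AffineMap.lineMap a b s) ⊆ segment ℝ a b := by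
    intro s hs
    exact (convex_segment a b).segment_subset (left_mem_segment ℝ a b) (hx s hs)
  have hcx : ∀ s ∈ Icc (0:ℝ) 1, c ∉ segment ℝ a (AffineMap.lineMap a b s) :=
    fun s hs hm => hcm (hsub s hs hm)
  have hdx : ∀ s ∈ Icc (0:ℝ) 1, d ∉ segment ℝ a (AffineMap.lineMap a b s) :=
    fun s hs hm => hdm (hsub s hs hm)
  have hcont : Continuous fun s : ℝ => (AffineMap.lineMap a b s : ℂ) := AffineMap.lineMap_continuous
  let f : ℝ → ℝ := fun s => An (AffineMap.lineMap a b s) c d + An c a (AffineMap.lineMap a b s) -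
    An d a (AffineMap.lineMap a b s)
  have hac : a ≠ c := (ne_of_notMem_left hcm).symm
  have had : a ≠ d := (ne_of_notMem_left hdm).symm
  have hf : ContinuousOn f (Icc 0 1) := by
    apply ContinuousOn.sub
    · apply ContinuousOn.add
      · intro s hs
        apply ContinuousAt.continuousWithinAt
        unfold An
        refine ContinuousAt.comp (g := arg)
          (f := fun s : ℝ => (d - AffineMap.lineMap a b s) / (c - AffineMap.lineMap a b s))
          (Complex.continuousAt_arg (slit_of_notMem (hx1 s hs))) ?_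
        apply ContinuousAt.div
        · exact (continuous_const.sub hcont).continuousAt
        · exact (continuous_const.sub hcont).continuousAt
        · exact sub_ne_zero.2 (ne_of_notMem_left (hx1 s hs)).symm
      · intro s hs
        apply ContinuousAt.continuousWithinAt
        unfold An
        refine ContinuousAt.comp (g := arg)
          (f := fun s : ℝ => ((AffineMap.lineMap a b s : ℂ) - c) / (a - c))
          (Complex.continuousAt_arg (slit_of_notMem (hcx s hs))) ?_
        exact ((hcont.sub continuous_const).div_const _).continuousAt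
    · intro s hs
      apply ContinuousAt.continuousWithinAt
      unfold An
      refine ContinuousAt.comp (g := arg)
        (f := fun s : ℝ => ((AffineMap.lineMap a b s : ℂ) - d) / (a - d))
        (Complex.continuousAt_arg (slit_of_notMem (hdx s hs))) ?_
      exact ((hcont.sub continuous_const).div_const _).continuousAt
  have hang : ∀ s ∈ Icc (0:ℝ) 1, ((f s : ℝ) : Real.Angle) =
      (arg (a - d) : Real.Angle) - (arg (a - c) : Real.Angle) := by
    intro s hs
    have h1 : (AffineMap.lineMap a b s : ℂ) ≠ c := ne_of_notMem_left (hx1 s hs)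
    have h2 : (AffineMap.lineMap a b s : ℂ) ≠ d := ne_of_notMem_right (hx1 s hs)
    change (((An (AffineMap.lineMap a b s) c d + An c a (AffineMap.lineMap a b s) -
      An d a (AffineMap.lineMap a b s) : ℝ)) : Real.Angle) = _
    rw [Real.Angle.coe_sub, Real.Angle.coe_add, An_angle h1.symm h2.symm, An_angle hac h1,
      An_angle had h2, arg_sub_swap h1.symm, arg_sub_swap h2.symm]
    abel
  have h10 := const_of_angle hf (fun s hs => by rw [hang s hs, hang 0 (by simp)])
  have e1 : f 1 = An b c d + An c a b - An d a b := by simp [f]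
  have e0 : f 0 = An a c d := by
    have h1 : An c a a = 0 := by
      unfold An
      rw [div_self (sub_ne_zero.2 hac), arg_one]
    have h2 : An d a a = 0 := by
      unfold An
      rw [div_self (sub_ne_zero.2 had), arg_one]
    simp [f, h1, h2]
  rw [e1, e0] at h10
  linarith

/-- the exterior angle at `y` of the path `x → y → w` -/
noncomputable def turn (x y w : ℂ) : ℝ := arg ((w - y) / (y - x))

theorem arg_one_add {μ : ℂ} (h : μ ∈ slitPlane) : arg (1 + μ) + arg (μ / (1 + μ)) = arg μ := by
  have hμ : μ ≠ 0 := Complex.slitPlane_ne_zero h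
  have h1 : 1 + μ ≠ 0 := by
    intro h0
    have : μ = -1 := by linear_combination h0
    rw [this, Complex.mem_slitPlane_iff] at h
    simp at h
    linarith
  have hang : ((arg (1 + μ) + arg (μ / (1 + μ)) : ℝ) : Real.Angle) = (arg μ : Real.Angle) := by
    rw [Real.Angle.coe_add, Complex.arg_div_coe_angle hμ h1]
    abel
  have hns : 0 < Complex.normSq (1 + μ) := Complex.normSq_pos.2 h1
  have him : (μ / (1 + μ)).im = μ.im / Complex.normSq (1 + μ) := by
    rw [Complex.div_im]
    simp
    field_simp
    ring
  apply eq_of_angle_eq hang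
  have b1 := Complex.neg_pi_lt_arg (1 + μ)
  have b2 := Complex.arg_le_pi (1 + μ)
  have b3 := Complex.neg_pi_lt_arg (μ / (1 + μ))
  have b4 := Complex.arg_le_pi (μ / (1 + μ))
  have b5 := Complex.neg_pi_lt_arg μ
  have b6 := Complex.arg_le_pi μ
  have hp := Real.pi_pos
  rcases lt_trichotomy μ.im 0 with hi | hi | hi
  · have c1 : arg (1 + μ) < 0 := Complex.arg_neg_iff.2 (by simpa using hi)
    have c2 : arg (μ / (1 + μ)) < 0 := by
      apply Complex.arg_neg_iff.2
      rw [him]
      exact div_neg_of_neg_of_pos hi hns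
    have c3 : arg μ < 0 := Complex.arg_neg_iff.2 hi
    rw [abs_lt]
    constructor <;> linarith
  · have hre : 0 < μ.re := by
      rcases Complex.mem_slitPlane_iff.1 h with h2 | h2
      · exact h2
      · exact absurd hi h2
    have e1 : μ = (μ.re : ℂ) := by
      apply Complex.ext
      · simp
      · simpa using hi
    have c3 : arg μ = 0 := by
      rw [e1]; exact Complex.arg_ofReal_of_nonneg hre.le
    have c1 : arg (1 + μ) = 0 := by
      rw [e1]
      have : (1 + (μ.re : ℂ)) = ((1 + μ.re : ℝ) : ℂ) := by push_cast; ring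
      rw [this]
      exact Complex.arg_ofReal_of_nonneg (by linarith)
    have c2 : arg (μ / (1 + μ)) = 0 := by
      rw [e1]
      have : ((μ.re : ℂ) / (1 + (μ.re : ℂ))) = ((μ.re / (1 + μ.re) : ℝ) : ℂ) := by push_cast; ring
      rw [this]
      exact Complex.arg_ofReal_of_nonneg (by positivity)
    rw [c1, c2, c3]
    simp
    exact hp
  · have c1 : 0 ≤ arg (1 + μ) := Complex.arg_nonneg_iff.2 (by simpa using hi.le)
    have c2 : 0 ≤ arg (μ / (1 + μ)) := by
      apply Complex.arg_nonneg_iff.2
      rw [him]
      positivity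
    have c3 : 0 < arg μ := by
      apply lt_of_le_of_ne (Complex.arg_nonneg_iff.2 hi.le)
      intro h0
      have := Complex.arg_eq_zero_iff.1 h0.symm
      linarith [this.2]
    have c4 : arg (1 + μ) < π := by
      apply lt_of_le_of_ne b2
      intro h0
      have := (Complex.arg_eq_pi_iff.1 h0).2
      simp at this
      linarith
    rw [abs_lt]
    constructor <;> linarith

/-- exterior angle theorem -/
theorem ext_angle {x y w : ℂ} (hxy : x ≠ y) (h : (w - y) / (y - x) ∈ slitPlane) :
    turn x y w = An x y w + An w x y := by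
  unfold turn An
  set μ := (w - y) / (y - x) with hμ
  have hyx : y - x ≠ 0 := sub_ne_zero.2 hxy.symm
  have hμ0 : μ ≠ 0 := Complex.slitPlane_ne_zero h
  have h1 : 1 + μ ≠ 0 := by
    intro h0
    have : μ = -1 := by linear_combination h0
    rw [this, Complex.mem_slitPlane_iff] at h
    simp at h
    linarith
  have e1 : (w - x) / (y - x) = 1 + μ := by
    rw [hμ]; field_simp; ring
  have hwx : w - x ≠ 0 := by
    intro h0
    rw [h0, zero_div] at e1
    exact h1 e1.symm
  have e2 : (y - w) / (x - w) = μ / (1 + μ) := by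
    rw [← e1, hμ]
    have hxw : x - w ≠ 0 := by
      intro h0
      apply hwx
      linear_combination -h0
    field_simp
    ring
  rw [e1, e2]
  exact (arg_one_add h).symm

end Pool.Agent.Helper50Bend
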