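import Mathlib

/-!
# Simultaneous drawings of compatibly embedded graphs: definitions

The plane is `ℂ`.  A combinatorial embedding of a connected graph is a rotation system (the
counterclockwise cyclic order of the neighbours around every vertex); it is planar if Euler's
formula `|V| - |E| + |F| = 2` holds, where the faces are the orbits of the face-tracing step.
-/

set_option autoImplicit false

namespace Pool.Agent.Helper50Bend

/-- A rotation system of the graph `G`: `next v w` is the neighbour of `v` that follows the
neighbour `w` in the counterclockwise cyclic order around `v`.  The condition `cyc` says that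
`next v` runs through all neighbours of `v` in a single cycle. -/
structure Rot {V : Type} (G : SimpleGraph V) where
  next : V → V → V
  adj : ∀ v w, G.Adj v w → G.Adj v (next v w)
  cyc : ∀ v w x, G.Adj v w → G.Adj v x → ∃ n : ℕ, (next v)^[n] w = x

/-- Two darts (directed edges) are consecutive on the boundary walk of a face: after `v → w`
comes `w → next w v`. -/
def Rot.FaceStep {V : Type} {G : SimpleGraph V} (R : Rot G) (d e : G.Dart) : Prop :=
  e.fst = d.snd ∧ e.snd = R.next d.snd d.fst

/-- The faces of a rotation system: the classes of darts under the face step. -/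
def Rot.Face {V : Type} {G : SimpleGraph V} (R : Rot G) : Type := Quot R.FaceStep

/-- The rotation system of a connected graph (with at least one edge) is a planar embedding:
Euler's formula holds. -/
def Rot.IsPlanar {V : Type} {G : SimpleGraph V} (R : Rot G) : Prop :=
  G.Connected ∧ (Nat.card V : ℤ) - Nat.card G.edgeSet + Nat.card R.Face = 2

/-- `x` is the first neighbour of `v` in the subgraph `H` that comes after `w` in the cyclic order
of the rotation system `R` around `v` (if `w` is the only one then `x = w`). -/
def Rot.NextIn {V : Type} {G : SimpleGraph V} (R : Rot G) (H : SimpleGraph V) (v w x : V) : Prop :=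
  ∃ n : ℕ, 0 < n ∧ (R.next v)^[n] w = x ∧ H.Adj v x ∧
    ∀ m, 0 < m → m < n → ¬ H.Adj v ((R.next v)^[m] w)

/-- The two rotation systems induce the same cyclic order of the neighbours in the shared graph
`G₁ ⊓ G₂` around every vertex. -/
def Compatible {V : Type} {G₁ G₂ : SimpleGraph V} (R₁ : Rot G₁) (R₂ : Rot G₂) : Prop :=
  ∀ v w x, (G₁ ⊓ G₂).Adj v w → (R₁.NextIn (G₁ ⊓ G₂) v w x ↔ R₂.NextIn (G₁ ⊓ G₂) v w x)

/-- The polygonal curve through the points of the list: the union of the segments that join
consecutive points. -/
def polyline : List ℂ → Set ℂ
  | [] => ∅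
  | [_] => ∅
  | a :: b :: l => segment ℝ a b ∪ polyline (b :: l)

/-- The polygonal curve is simple: consecutive points are distinct and every segment meets the
rest of the curve only in their common point. -/
def SimplePoly : List ℂ → Prop
  | [] => True
  | [_] => True
  | a :: b :: l => a ≠ b ∧ segment ℝ a b ∩ polyline (b :: l) ⊆ {b} ∧ SimplePoly (b :: l)

/-- A polygonal drawing of the edges on the vertex set `V`: the position of every vertex, and for
every edge `vw` the list `bends v w` of the interior corners, in the order from `v` to `w`. -/
structure Drawing (V : Type) where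
  pos : V → ℂ
  bends : V → V → List ℂ
  symm : ∀ v w, bends w v = (bends v w).reverse

/-- the corners of the curve of the edge `vw`, from `v` to `w` -/
def Drawing.corners {V : Type} (D : Drawing V) (v w : V) : List ℂ :=
  D.pos v :: (D.bends v w ++ [D.pos w])

/-- the curve of the edge `vw` -/
def Drawing.curve {V : Type} (D : Drawing V) (v w : V) : Set ℂ := polyline (D.corners v w)

/-- the vector in whose direction the edge `vw` leaves `v`: from `v` to the next corner -/
def Drawing.dir {V : Type} (D : Drawing V) (v w : V) : ℂ := (D.bends v w).headD (D.pos w) - D.pos v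

/-- The edges of `G` form a planar drawing: every edge is a simple polygonal curve, it passes
through no vertex other than its ends, and two different edges meet at most in common ends. -/
def Drawing.PlanarOn {V : Type} (D : Drawing V) (G : SimpleGraph V) : Prop :=
  (∀ v w, G.Adj v w → SimplePoly (D.corners v w)) ∧
  (∀ v w u, G.Adj v w → D.pos u ∈ D.curve v w → u = v ∨ u = w) ∧
  (∀ v w x y, G.Adj v w → G.Adj x y → s(v, w) ≠ s(x, y) →
    ∀ z ∈ D.curve v w ∩ D.curve x y, ∃ u, z = D.pos u ∧ (u = v ∨ u = w) ∧ (u = x ∨ u = y))

/-- the counterclockwise angle from the vector `u` to the vector `v`, in `(0, 2π]` -/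
noncomputable def ccw (u v : ℂ) : ℝ :=
  if 0 < Complex.arg (v / u) then Complex.arg (v / u) else Complex.arg (v / u) + 2 * Real.pi

/-- The cyclic order in which the drawn edges leave each vertex is the one of the rotation system
`R`: turning counterclockwise from the edge `vw`, the first edge met is `v (next v w)`. -/
def Drawing.Realizes {V : Type} (D : Drawing V) {G : SimpleGraph V} (R : Rot G) : Prop :=
  ∀ v w x, G.Adj v w → G.Adj v x → ccw (D.dir v w) (D.dir v (R.next v w)) ≤
    ccw (D.dir v w) (D.dir v x)

/-- `D` is a `(k₁, k₂)`-drawing that realises the pair of embeddings `(R₁, R₂)`: a simultaneous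
drawing in which shared edges have at most `k₁` and exclusive edges at most `k₂` bends. -/
def Drawing.IsSimultaneous {V : Type} (D : Drawing V) {G₁ G₂ : SimpleGraph V} (R₁ : Rot G₁)
    (R₂ : Rot G₂) (k₁ k₂ : ℕ) : Prop :=
  Function.Injective D.pos ∧ D.PlanarOn G₁ ∧ D.PlanarOn G₂ ∧ D.Realizes R₁ ∧ D.Realizes R₂ ∧
  (∀ v w, (G₁ ⊓ G₂).Adj v w → (D.bends v w).length ≤ k₁) ∧
  (∀ v w, (G₁ ⊔ G₂).Adj v w → ¬ (G₁ ⊓ G₂).Adj v w → (D.bends v w).length ≤ k₂)

end Pool.Agent.Helper50Bend
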