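import Mathlib
import Pool.Agent.Helper50_Bend.Defs

/-!
# The example: a spider with four legs of length six

`none` is the centre, `some (l, k)` is the vertex `p_{k+1}` of leg `l`.
-/

set_option autoImplicit false

namespace Pool.Agent.Helper50Bend

/-- the vertices of the example -/
abbrev VV : Type := Option (Fin 4 × Fin 6)

/-- adjacency in the shared graph, a spider -/
def sAdj : VV → VV → Bool
  | none, none => false
  | none, some (_, k) => decide (k = 0)
  | some (_, k), none => decide (k = 0)
  | some (l, k), some (l', k') =>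
    decide (l = l') && (decide (k.val + 1 = k'.val) || decide (k'.val + 1 = k.val))

/-- exclusive edges of the first graph: `p_1 p_3` and `p_3 p_5` on every leg -/
def e1Adj : VV → VV → Bool
  | some (l, k), some (l', k') => decide (l = l') &&
    (decide (k = 0 ∧ k' = 2) || decide (k = 2 ∧ k' = 0) || decide (k = 2 ∧ k' = 4) ||
      decide (k = 4 ∧ k' = 2))
  | _, _ => false

/-- exclusive edges of the second graph: `p_1 p_5` on every leg -/
def e2Adj : VV → VV → Bool
  | some (l, k), some (l', k') => decide (l = l') &&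
    (decide (k = 0 ∧ k' = 4) || decide (k = 4 ∧ k' = 0))
  | _, _ => false

/-- the shared graph -/
def GS : SimpleGraph VV where
  Adj v w := sAdj v w = true
  symm := ⟨by decide +kernel⟩
  loopless := ⟨by decide +kernel⟩

/-- the first graph -/
def G1 : SimpleGraph VV where
  Adj v w := (sAdj v w || e1Adj v w) = true
  symm := ⟨by decide +kernel⟩
  loopless := ⟨by decide +kernel⟩

/-- the second graph -/
def G2 : SimpleGraph VV where
  Adj v w := (sAdj v w || e2Adj v w) = true
  symm := ⟨by decide +kernel⟩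
  loopless := ⟨by decide +kernel⟩

instance : DecidableRel GS.Adj := fun v w => inferInstanceAs (Decidable (sAdj v w = true))
instance : DecidableRel G1.Adj :=
  fun v w => inferInstanceAs (Decidable ((sAdj v w || e1Adj v w) = true))
instance : DecidableRel G2.Adj :=
  fun v w => inferInstanceAs (Decidable ((sAdj v w || e2Adj v w) = true))

/-- the cyclic successor in the first embedding -/
def next1 : VV → VV → VV
  | none, some (l, _) => some (l + 1, 0)
  | none, none => none
  | some (l, 0), w => if w = some (l, 1) then none else if w = none then some (l, 2)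
      else some (l, 1)
  | some (l, 1), w => if w = some (l, 0) then some (l, 2) else some (l, 0)
  | some (l, 2), w => if w = some (l, 3) then some (l, 0) else if w = some (l, 0) then some (l, 1)
      else if w = some (l, 1) then some (l, 4) else some (l, 3)
  | some (l, 3), w => if w = some (l, 2) then some (l, 4) else some (l, 2)
  | some (l, 4), w => if w = some (l, 5) then some (l, 2) else if w = some (l, 2) then some (l, 3)
      else some (l, 5)
  | some (l, 5), _ => some (l, 4)

/-- the cyclic successor in the second embedding -/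
def next2 : VV → VV → VV
  | none, some (l, _) => some (l + 1, 0)
  | none, none => none
  | some (l, 0), w => if w = some (l, 1) then some (l, 4) else if w = some (l, 4) then none
      else some (l, 1)
  | some (l, 1), w => if w = some (l, 0) then some (l, 2) else some (l, 0)
  | some (l, 2), w => if w = some (l, 1) then some (l, 3) else some (l, 1)
  | some (l, 3), w => if w = some (l, 2) then some (l, 4) else some (l, 2)
  | some (l, 4), w => if w = some (l, 5) then some (l, 3) else if w = some (l, 3) then some (l, 0)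
      else some (l, 5)
  | some (l, 5), _ => some (l, 4)

/-- the cyclic successor in the shared graph -/
def nextS : VV → VV → VV
  | none, some (l, _) => some (l + 1, 0)
  | none, none => none
  | some (l, 0), w => if w = none then some (l, 1) else none
  | some (l, 1), w => if w = some (l, 0) then some (l, 2) else some (l, 0)
  | some (l, 2), w => if w = some (l, 1) then some (l, 3) else some (l, 1)
  | some (l, 3), w => if w = some (l, 2) then some (l, 4) else some (l, 2)
  | some (l, 4), w => if w = some (l, 5) then some (l, 3) else some (l, 5)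
  | some (l, 5), _ => some (l, 4)

theorem cyc1 : ∀ v w x : VV, G1.Adj v w → G1.Adj v x → ∃ n : Fin 5, (next1 v)^[n] w = x := by
  decide +kernel

theorem cyc2 : ∀ v w x : VV, G2.Adj v w → G2.Adj v x → ∃ n : Fin 5, (next2 v)^[n] w = x := by
  decide +kernel

/-- the first embedding -/
def R1 : Rot G1 where
  next := next1
  adj := by decide +kernel
  cyc := fun v w x h1 h2 => by
    obtain ⟨n, hn⟩ := cyc1 v w x h1 h2
    exact ⟨n, hn⟩

/-- the second embedding -/
def R2 : Rot G2 where
  next := next2
  adj := by decide +kernel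
  cyc := fun v w x h1 h2 => by
    obtain ⟨n, hn⟩ := cyc2 v w x h1 h2
    exact ⟨n, hn⟩

/-! ### Faces -/

theorem face_iter {V : Type} {G : SimpleGraph V} (R : Rot G) (n : ℕ) :
    ∀ (p : V × V) (h : G.Adj p.1 p.2),
      ∃ h' : G.Adj ((fun q : V × V => (q.2, R.next q.2 q.1))^[n] p).1
        ((fun q : V × V => (q.2, R.next q.2 q.1))^[n] p).2,
        Quot.mk R.FaceStep (⟨p, h⟩ : G.Dart) = Quot.mk R.FaceStep ⟨_, h'⟩ := by
  induction n with
  | zero => intro p h; exact ⟨h, rfl⟩
  | succ n ih =>
    intro p h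
    have h2 : G.Adj p.2 (R.next p.2 p.1) := R.adj _ _ h.symm
    obtain ⟨h', e⟩ := ih (p.2, R.next p.2 p.1) h2
    have s1 : Quot.mk R.FaceStep (⟨p, h⟩ : G.Dart) =
        Quot.mk R.FaceStep ⟨(p.2, R.next p.2 p.1), h2⟩ := Quot.sound ⟨rfl, rfl⟩
    exact ⟨h', s1.trans e⟩

theorem card_face {V : Type} {G : SimpleGraph V} (R : Rot G) {L : Type} [Fintype L]
    (lab : V → V → L) (rep : L → V × V) (hrep : ∀ l, G.Adj (rep l).1 (rep l).2)
    (hlab : ∀ l, lab (rep l).1 (rep l).2 = l)
    (hinv : ∀ v w, G.Adj v w → lab w (R.next w v) = lab v w)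
    (hit : ∀ v w, G.Adj v w → ∃ n : ℕ,
      (fun q : V × V => (q.2, R.next q.2 q.1))^[n] (v, w) = rep (lab v w)) :
    Nat.card R.Face = Fintype.card L := by
  rw [← Nat.card_eq_fintype_card]
  apply Nat.card_congr
  refine Equiv.ofBijective (Quot.lift (fun d : G.Dart => lab d.fst d.snd) ?_) ⟨?_, ?_⟩
  · rintro d e ⟨h1, h2⟩
    change lab d.fst d.snd = lab e.fst e.snd
    rw [h1, h2, hinv _ _ d.adj]
  · intro a b
    induction a using Quot.ind with | _ d => ?_
    induction b using Quot.ind with | _ e => ?_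
    intro h
    have h' : lab d.fst d.snd = lab e.fst e.snd := h
    obtain ⟨n, hn⟩ := hit d.fst d.snd d.adj
    obtain ⟨m, hm⟩ := hit e.fst e.snd e.adj
    obtain ⟨a1, a2⟩ := face_iter R n (d.fst, d.snd) d.adj
    obtain ⟨b1, b2⟩ := face_iter R m (e.fst, e.snd) e.adj
    have c1 : Quot.mk R.FaceStep d = Quot.mk R.FaceStep ⟨rep (lab d.fst d.snd), hrep _⟩ := by
      refine a2.trans ?_
      congr 1
      exact SimpleGraph.Dart.ext _ _ hn
    have c2 : Quot.mk R.FaceStep e = Quot.mk R.FaceStep ⟨rep (lab e.fst e.snd), hrep _⟩ := by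
      refine b2.trans ?_
      congr 1
      exact SimpleGraph.Dart.ext _ _ hm
    rw [c1, c2]
    congr 1
    exact SimpleGraph.Dart.ext _ _ (by simp only [h'])
  · intro l
    exact ⟨Quot.mk _ ⟨rep l, hrep l⟩, hlab l⟩

/-- face labels of the first embedding -/
def lab1 : VV → VV → Option (Fin 4 × Bool)
  | some (l, k), some (_, k') =>
    if (k = 0 ∧ k' = 1) ∨ (k = 1 ∧ k' = 2) ∨ (k = 2 ∧ k' = 4) ∨ (k = 4 ∧ k' = 3) ∨
      (k = 3 ∧ k' = 2) ∨ (k = 2 ∧ k' = 0) then some (l, false)
    else if (k = 2 ∧ k' = 3) ∨ (k = 3 ∧ k' = 4) ∨ (k = 4 ∧ k' = 5) ∨ (k = 5 ∧ k' = 4) ∨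
      (k = 4 ∧ k' = 2) then some (l, true)
    else none
  | _, _ => none

def rep1 : Option (Fin 4 × Bool) → VV × VV
  | none => (none, some (0, 0))
  | some (l, false) => (some (l, 0), some (l, 1))
  | some (l, true) => (some (l, 2), some (l, 3))

/-- face labels of the second embedding -/
def lab2 : VV → VV → Option (Fin 4)
  | some (l, k), some (_, k') =>
    if (k = 0 ∧ k' = 4) ∨ (k = 4 ∧ k' = 5) ∨ (k = 5 ∧ k' = 4) ∨ (k = 4 ∧ k' = 3) ∨
      (k = 3 ∧ k' = 2) ∨ (k = 2 ∧ k' = 1) ∨ (k = 1 ∧ k' = 0) then some l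
    else none
  | _, _ => none

def rep2 : Option (Fin 4) → VV × VV
  | none => (none, some (0, 0))
  | some l => (some (l, 0), some (l, 4))

theorem hit1 : ∀ v w : VV, G1.Adj v w → ∃ n : Fin 20,
    (fun q : VV × VV => (q.2, next1 q.2 q.1))^[n] (v, w) = rep1 (lab1 v w) := by
  decide +kernel

theorem hit2 : ∀ v w : VV, G2.Adj v w → ∃ n : Fin 28,
    (fun q : VV × VV => (q.2, next2 q.2 q.1))^[n] (v, w) = rep2 (lab2 v w) := by
  decide +kernel

theorem card_face1 : Nat.card R1.Face = 9 := by
  have h := card_face R1 lab1 rep1 (by decide +kernel) (by decide +kernel)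
    (show ∀ v w, G1.Adj v w → lab1 w (next1 w v) = lab1 v w by decide +kernel)
    (fun v w h => by
      obtain ⟨n, hn⟩ := hit1 v w h
      exact ⟨n, hn⟩)
  rw [h]
  rfl

theorem card_face2 : Nat.card R2.Face = 5 := by
  have h := card_face R2 lab2 rep2 (by decide +kernel) (by decide +kernel)
    (show ∀ v w, G2.Adj v w → lab2 w (next2 w v) = lab2 v w by decide +kernel)
    (fun v w h => by
      obtain ⟨n, hn⟩ := hit2 v w h
      exact ⟨n, hn⟩)
  rw [h]
  rfl

/-! ### Edges and connectivity -/

theorem card_edges {V : Type} [Fintype V] [DecidableEq V] (G : SimpleGraph V) [DecidableRel G.Adj]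
    (k : ℕ) (h : ∑ v, G.degree v = 2 * k) : Nat.card G.edgeSet = k := by
  rw [Nat.card_eq_fintype_card, ← SimpleGraph.edgeFinset_card]
  have := G.sum_degrees_eq_twice_card_edges
  omega

theorem card_edges1 : Nat.card G1.edgeSet = 32 := by
  apply card_edges
  decide +kernel

theorem card_edges2 : Nat.card G2.edgeSet = 28 := by
  apply card_edges
  decide +kernel

theorem conn_of_spider {G : SimpleGraph VV} (h : GS ≤ G) : G.Connected := by
  have h0 : ∀ l, G.Adj none (some (l, 0)) := fun l => h (by revert l; decide +kernel)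
  have h1 : ∀ l, G.Adj (some (l, 0)) (some (l, 1)) := fun l => h (by revert l; decide +kernel)
  have h2 : ∀ l, G.Adj (some (l, 1)) (some (l, 2)) := fun l => h (by revert l; decide +kernel)
  have h3 : ∀ l, G.Adj (some (l, 2)) (some (l, 3)) := fun l => h (by revert l; decide +kernel)
  have h4 : ∀ l, G.Adj (some (l, 3)) (some (l, 4)) := fun l => h (by revert l; decide +kernel)
  have h5 : ∀ l, G.Adj (some (l, 4)) (some (l, 5)) := fun l => h (by revert l; decide +kernel)
  have r0 : ∀ l, G.Reachable none (some (l, 0)) := fun l => (h0 l).reachable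
  have r1 : ∀ l, G.Reachable none (some (l, 1)) := fun l => (r0 l).trans (h1 l).reachable
  have r2 : ∀ l, G.Reachable none (some (l, 2)) := fun l => (r1 l).trans (h2 l).reachable
  have r3 : ∀ l, G.Reachable none (some (l, 3)) := fun l => (r2 l).trans (h3 l).reachable
  have r4 : ∀ l, G.Reachable none (some (l, 4)) := fun l => (r3 l).trans (h4 l).reachable
  have r5 : ∀ l, G.Reachable none (some (l, 5)) := fun l => (r4 l).trans (h5 l).reachable
  have hr : ∀ v, G.Reachable none v := by
    rintro (_ | ⟨l, k⟩)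
    · exact SimpleGraph.Reachable.refl _
    · fin_cases k
      · exact r0 l
      · exact r1 l
      · exact r2 l
      · exact r3 l
      · exact r4 l
      · exact r5 l
  exact ⟨fun v w => (hr v).symm.trans (hr w)⟩

theorem GS_le1 : GS ≤ G1 := by
  intro v w h
  change (sAdj v w || e1Adj v w) = true
  have h' : sAdj v w = true := h
  rw [h']
  rfl

theorem GS_le2 : GS ≤ G2 := by
  intro v w h
  change (sAdj v w || e2Adj v w) = true
  have h' : sAdj v w = true := h
  rw [h']
  rfl

theorem inf_adj : ∀ v w, (G1 ⊓ G2).Adj v w ↔ GS.Adj v w := by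
  intro v w
  rw [SimpleGraph.inf_adj]
  revert v w
  decide +kernel

theorem inf_eq : G1 ⊓ G2 = GS := by
  ext v w
  exact inf_adj v w

theorem planar1 : R1.IsPlanar := by
  refine ⟨conn_of_spider GS_le1, ?_⟩
  rw [card_edges1, card_face1, Nat.card_eq_fintype_card]
  have : Fintype.card VV = 25 := rfl
  rw [this]
  norm_num

theorem planar2 : R2.IsPlanar := by
  refine ⟨conn_of_spider GS_le2, ?_⟩
  rw [card_edges2, card_face2, Nat.card_eq_fintype_card]
  have : Fintype.card VV = 25 := rfl
  rw [this]
  norm_num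

theorem conn_inf : (G1 ⊓ G2).Connected := by
  rw [inf_eq]
  exact conn_of_spider le_rfl

theorem card_edgesS : Nat.card GS.edgeSet = 24 := by
  apply card_edges
  decide +kernel

theorem tree_inf : (G1 ⊓ G2).IsTree := by
  rw [inf_eq, SimpleGraph.isTree_iff_connected_and_card]
  refine ⟨conn_of_spider le_rfl, ?_⟩
  rw [card_edgesS, Nat.card_eq_fintype_card]
  rfl

/-! ### Compatibility -/

theorem nextIn_unique {V : Type} {G : SimpleGraph V} {R : Rot G} {H : SimpleGraph V} {v w x y : V}
    (h1 : R.NextIn H v w x) (h2 : R.NextIn H v w y) : x = y := by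
  obtain ⟨n, hn0, hn, hnx, hn'⟩ := h1
  obtain ⟨m, hm0, hm, hmx, hm'⟩ := h2
  rcases lt_trichotomy n m with h | h | h
  · exfalso
    apply hm' n hn0 h
    rw [hn]
    exact hnx
  · subst h
    rw [← hn, ← hm]
  · exfalso
    apply hn' m hm0 h
    rw [hm]
    exact hmx

theorem first1 : ∀ v w : VV, GS.Adj v w → ∃ n : Fin 4, 0 < n.val ∧ (next1 v)^[n.val] w = nextS v w ∧
    GS.Adj v (nextS v w) ∧ ∀ m : Fin 4, 0 < m.val → m.val < n.val → ¬ GS.Adj v ((next1 v)^[m.val] w) := by
  decide +kernel

theorem first2 : ∀ v w : VV, GS.Adj v w → ∃ n : Fin 4, 0 < n.val ∧ (next2 v)^[n.val] w = nextS v w ∧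
    GS.Adj v (nextS v w) ∧ ∀ m : Fin 4, 0 < m.val → m.val < n.val → ¬ GS.Adj v ((next2 v)^[m.val] w) := by
  decide +kernel

theorem nextIn1 (v w : VV) (h : GS.Adj v w) : R1.NextIn GS v w (nextS v w) := by
  obtain ⟨n, h0, h1, h2, h3⟩ := first1 v w h
  refine ⟨n, h0, h1, h2, ?_⟩
  intro m hm hmn
  exact h3 ⟨m, by omega⟩ hm hmn

theorem nextIn2 (v w : VV) (h : GS.Adj v w) : R2.NextIn GS v w (nextS v w) := by
  obtain ⟨n, h0, h1, h2, h3⟩ := first2 v w h
  refine ⟨n, h0, h1, h2, ?_⟩
  intro m hm hmn
  exact h3 ⟨m, by omega⟩ hm hmn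

theorem compat : Compatible R1 R2 := by
  intro v w x h
  rw [inf_eq] at h ⊢
  constructor
  · intro h1
    rw [nextIn_unique h1 (nextIn1 v w h)]
    exact nextIn2 v w h
  · intro h1
    rw [nextIn_unique h1 (nextIn2 v w h)]
    exact nextIn1 v w h

end Pool.Agent.Helper50Bend
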