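import Mathlib
import Pool.Agent.Helper50_Bend.Angle
import Pool.Agent.Helper50_Bend.Defs

/-!
# Counterclockwise angles, winding sums and the angle sums of quadrilaterals and hexagons
-/

set_option autoImplicit false

namespace Pool.Agent.Helper50Bend

open Complex Set Real

/-! ### Counterclockwise angles -/

theorem ccw_pos (u v : ℂ) : 0 < ccw u v := by
  unfold ccw
  split_ifs with h
  · exact h
  · have := Complex.neg_pi_lt_arg (v / u)
    linarith [Real.pi_pos]

theorem ccw_le (u v : ℂ) : ccw u v ≤ 2 * π := by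
  unfold ccw
  split_ifs with h
  · linarith [Complex.arg_le_pi (v / u), Real.pi_pos]
  · push Not at h
    linarith

theorem ccw_angle {u v : ℂ} (hu : u ≠ 0) (hv : v ≠ 0) :
    ((ccw u v : ℝ) : Real.Angle) = (arg v : Real.Angle) - (arg u : Real.Angle) := by
  unfold ccw
  split_ifs with h
  · exact Complex.arg_div_coe_angle hv hu
  · rw [Real.Angle.coe_add, Real.Angle.coe_two_pi, add_zero]
    exact Complex.arg_div_coe_angle hv hu

theorem ccw_add {u v w : ℂ} (hu : u ≠ 0) (hv : v ≠ 0) (hw : w ≠ 0) (h : ccw u v < ccw u w) :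
    ccw u v + ccw v w = ccw u w := by
  have h1 := ccw_pos u v
  have h2 := ccw_pos v w
  have h3 := ccw_le v w
  have h4 := ccw_le u w
  have h5 := ccw_pos u w
  have hang : ((ccw u v + ccw v w : ℝ) : Real.Angle) = ((ccw u w : ℝ) : Real.Angle) := by
    rw [Real.Angle.coe_add, ccw_angle hu hv, ccw_angle hv hw, ccw_angle hu hw]
    abel
  apply eq_of_angle_eq hang
  rw [abs_lt]
  constructor <;> linarith

theorem ccw_symm {u v : ℂ} (hu : u ≠ 0) (hv : v ≠ 0) (h : ccw u v < 2 * π) :
    ccw u v + ccw v u = 2 * π := by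
  have h1 := ccw_pos u v
  have h2 := ccw_pos v u
  have h3 := ccw_le v u
  have hang : ((ccw u v + ccw v u : ℝ) : Real.Angle) = ((2 * π : ℝ) : Real.Angle) := by
    rw [Real.Angle.coe_add, ccw_angle hu hv, ccw_angle hv hu, Real.Angle.coe_two_pi]
    abel
  apply eq_of_angle_eq hang
  rw [abs_lt]
  constructor <;> linarith

theorem ccw_real_mul {u v : ℂ} {r s : ℝ} (hr : 0 < r) (hs : 0 < s) :
    ccw ((r : ℂ) * u) ((s : ℂ) * v) = ccw u v := by
  have h : ((s : ℂ) * v) / ((r : ℂ) * u) = ((s / r : ℝ) : ℂ) * (v / u) := by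
    push_cast
    rw [mul_div_mul_comm]
  unfold ccw
  rw [h, Complex.arg_real_mul _ (by positivity)]

/-- the path `x → y → w` does not turn back on itself at `y` -/
def NF (x y w : ℂ) : Prop := (w - y) / (y - x) ∈ slitPlane

theorem nf_of_inter {x y w : ℂ} (hxy : x ≠ y) (hwy : w ≠ y)
    (h : segment ℝ x y ∩ segment ℝ y w ⊆ {y}) : NF x y w := by
  unfold NF
  rw [Complex.mem_slitPlane_iff_not_le_zero]
  intro hle
  have hyx : y - x ≠ 0 := sub_ne_zero.2 hxy.symm
  set c := (w - y) / (y - x) with hc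
  have him : c.im = 0 := by
    have := (Complex.le_def.1 hle).2
    simpa using this
  have hre : c.re ≤ 0 := by
    have := (Complex.le_def.1 hle).1
    simpa using this
  have hwr : c = (c.re : ℂ) := by
    apply Complex.ext
    · simp
    · simpa using him
  have hd : w - y = c.re * (y - x) := by
    rw [← hwr, hc, div_mul_cancel₀ _ hyx]
  set r : ℝ := -c.re with hr
  have hr0 : 0 ≤ r := by linarith
  have hw : w = y + r * (x - y) := by
    have : (c.re : ℂ) = -(r : ℂ) := by rw [hr]; push_cast; ring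
    rw [this] at hd
    linear_combination hd
  have hrpos : 0 < r := by
    rcases hr0.lt_or_eq with h1 | h1
    · exact h1
    · exfalso
      apply hwy
      rw [hw, ← h1]
      simp
  rcases le_or_gt r 1 with h1 | h1
  · apply hwy
    have hmem : w ∈ segment ℝ x y ∩ segment ℝ y w := by
      refine ⟨⟨r, 1 - r, hr0, by linarith, by ring, ?_⟩, right_mem_segment ℝ y w⟩
      rw [Complex.real_smul, Complex.real_smul, hw]
      push_cast
      ring
    exact h hmem
  · apply hxy
    have hmem : x ∈ segment ℝ x y ∩ segment ℝ y w := by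
      refine ⟨left_mem_segment ℝ x y, ⟨1 - 1 / r, 1 / r, ?_, by positivity, by ring, ?_⟩⟩
      · rw [sub_nonneg, div_le_one hrpos]
        exact h1.le
      · rw [Complex.real_smul, Complex.real_smul, hw]
        have : (r : ℂ) ≠ 0 := by exact_mod_cast hrpos.ne'
        push_cast
        field_simp
        ring
    exact h hmem

theorem turn_eq {x y w : ℂ} (hxy : x ≠ y) (hwy : w ≠ y) (h : NF x y w) :
    turn x y w = π - ccw (w - y) (x - y) := by
  have h1 : w - y ≠ 0 := sub_ne_zero.2 hwy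
  have h2 : x - y ≠ 0 := sub_ne_zero.2 hxy
  have h3 : y - x ≠ 0 := sub_ne_zero.2 hxy.symm
  have hang : ((turn x y w : ℝ) : Real.Angle) = ((π - ccw (w - y) (x - y) : ℝ) : Real.Angle) := by
    rw [Real.Angle.coe_sub, ccw_angle h1 h2]
    unfold turn
    rw [Complex.arg_div_coe_angle h1 h3, arg_sub_swap hxy.symm]
    have hpi : (π : Real.Angle) + (π : Real.Angle) = 0 := Real.Angle.coe_pi_add_coe_pi
    have : (arg (w - y) : Real.Angle) - ((arg (x - y) : Real.Angle) + (π : Real.Angle)) =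
        (π : Real.Angle) - ((arg (x - y) : Real.Angle) - (arg (w - y) : Real.Angle)) -
          ((π : Real.Angle) + (π : Real.Angle)) := by abel
    rw [this, hpi, sub_zero]
  apply eq_of_angle_eq hang
  have b1 : -π < turn x y w := Complex.neg_pi_lt_arg _
  have b2 : turn x y w < π :=
    lt_of_le_of_ne (Complex.arg_le_pi _) (Complex.mem_slitPlane_iff_arg.1 h).1
  have b3 := ccw_pos (w - y) (x - y)
  have b4 := ccw_le (w - y) (x - y)
  rw [abs_lt]
  constructor <;> linarith

theorem ccw_lt_of_nf {x y w : ℂ} (hxy : x ≠ y) (hwy : w ≠ y) (h : NF x y w) :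
    ccw (w - y) (x - y) < 2 * π := by
  have h1 := turn_eq hxy hwy h
  have b1 : -π < turn x y w := Complex.neg_pi_lt_arg _
  linarith

theorem nf_symm {x y w : ℂ} (h : NF x y w) : NF w y x := by
  unfold NF at h ⊢
  have : (x - y) / (y - w) = ((w - y) / (y - x))⁻¹ := by
    rw [inv_div, ← neg_sub y x, ← neg_sub w y, neg_div_neg_eq]
  rw [this]
  rw [Complex.mem_slitPlane_iff_arg] at h ⊢
  rw [Complex.arg_inv, if_neg h.1]
  refine ⟨?_, inv_ne_zero h.2⟩
  have := Complex.neg_pi_lt_arg ((w - y) / (y - x))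
  linarith [lt_of_le_of_ne (Complex.arg_le_pi ((w - y) / (y - x))) h.1]

/-! ### Winding sums -/

/-- `2π` times the winding number of the closed polygon `q` around `z` -/
noncomputable def Wd {m : ℕ} [NeZero m] (q : Fin m → ℂ) (z : ℂ) : ℝ :=
  ∑ k, An z (q k) (q (k + 1))

theorem sum_shift {m : ℕ} [NeZero m] (f : Fin m → ℝ) : ∑ k, f (k + 1) = ∑ k, f k :=
  Equiv.sum_comp (Equiv.addRight (1 : Fin m)) f

/-- the winding sum does not change along a segment that avoids the polygon -/
theorem Wd_segment {m : ℕ} [NeZero m] {q : Fin m → ℂ} {z z' : ℂ}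
    (h : ∀ k, Disjoint (segment ℝ z z') (segment ℝ (q k) (q (k + 1)))) : Wd q z = Wd q z' := by
  have h1 : ∑ k, (An z (q k) (q (k + 1)) + An (q (k + 1)) z z') =
      ∑ k, (An z' (q k) (q (k + 1)) + An (q k) z z') :=
    Finset.sum_congr rfl fun k _ => quad (h k)
  rw [Finset.sum_add_distrib, Finset.sum_add_distrib, sum_shift (fun k => An (q k) z z')] at h1
  unfold Wd
  linarith

theorem arg_half {u : ℂ} (h : 0 ≤ u.re) : |arg u| ≤ π / 2 := Complex.abs_arg_le_pi_div_two_iff.2 h

/-- points that are not to the left of the polygon have winding sum `0` -/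
theorem Wd_outside {m : ℕ} [NeZero m] {q : Fin m → ℂ} {z : ℂ} (h : ∀ k, (q k).re ≤ z.re)
    (hz : ∀ k, z ∉ segment ℝ (q k) (q (k + 1))) : Wd q z = 0 := by
  have key : ∀ k, An z (q k) (q (k + 1)) = arg (z - q (k + 1)) - arg (z - q k) := by
    intro k
    have h1 : q k ≠ z := (ne_of_notMem_left (hz k)).symm
    have h2 : q (k + 1) ≠ z := (ne_of_notMem_right (hz k)).symm
    have hang : ((An z (q k) (q (k + 1)) : ℝ) : Real.Angle) =
        ((arg (z - q (k + 1)) - arg (z - q k) : ℝ) : Real.Angle) := by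
      rw [An_angle h1 h2, Real.Angle.coe_sub, arg_sub_swap h1, arg_sub_swap h2]
      abel
    apply eq_of_angle_eq hang
    have b1 := An_lt (hz k)
    have b2 := arg_half (u := z - q (k + 1)) (by simpa using h (k + 1))
    have b3 := arg_half (u := z - q k) (by simpa using h k)
    rw [abs_lt] at b1
    rw [abs_le] at b2 b3
    rw [abs_lt]
    constructor <;> linarith [b1.1, b1.2, b2.1, b2.2, b3.1, b3.2]
  unfold Wd
  rw [Finset.sum_congr rfl fun k _ => key k, Finset.sum_sub_distrib,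
    sum_shift (fun k => arg (z - q k)), sub_self]

/-! ### The angle at the base corner -/

/-- If `z` is attached to the corner `y` of the path `x → y → w` on its right side, then the sum
of the angles seen from `z` and from `y` differ by the left angle at `y`. -/
theorem corner {x y w z : ℂ} (hxy : x ≠ y) (hwy : w ≠ y) (hzy : z ≠ y)
    (h1 : NF w y z) (h2 : NF x y z)
    (hR : ccw (w - y) (x - y) < ccw (w - y) (z - y)) :
    turn x y z - turn w y z = - ccw (w - y) (x - y) := by
  have e1 := turn_eq hwy hzy h1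
  have e2 := turn_eq hxy hzy h2
  have hx : x - y ≠ 0 := sub_ne_zero.2 hxy
  have hw : w - y ≠ 0 := sub_ne_zero.2 hwy
  have hz : z - y ≠ 0 := sub_ne_zero.2 hzy
  have s1 := ccw_symm hz hw (ccw_lt_of_nf hwy hzy h1)
  have s2 := ccw_symm hz hx (ccw_lt_of_nf hxy hzy h2)
  have s3 := ccw_add hw hx hz hR
  linarith

/-! ### Angle sums -/

theorem angle_sum4 {q : Fin 4 → ℂ} {z : ℂ}
    (hd : ∀ i j : Fin 4, i ≠ j → i + 1 ≠ j → j + 1 ≠ i →
      Disjoint (segment ℝ (q i) (q (i + 1))) (segment ℝ (q j) (q (j + 1))))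
    (hq : ∀ i, q i ≠ q (i + 1)) (hn : ∀ i, NF (q i) (q (i + 1)) (q (i + 2)))
    (hz : z ≠ q 0) (hz1 : NF (q 1) (q 0) z) (hz2 : NF (q 3) (q 0) z)
    (hzd : ∀ i : Fin 4, i ≠ 0 → i + 1 ≠ 0 →
      Disjoint (segment ℝ (q 0) z) (segment ℝ (q i) (q (i + 1))))
    (hzs : ∀ i : Fin 4, z ∉ segment ℝ (q i) (q (i + 1)))
    (hR : ccw (q 1 - q 0) (q 3 - q 0) < ccw (q 1 - q 0) (z - q 0)) (hW : Wd q z = 0) :
    ccw (q 1 - q 0) (q 3 - q 0) + ccw (q 2 - q 1) (q 0 - q 1) + ccw (q 3 - q 2) (q 1 - q 2) +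
      ccw (q 0 - q 3) (q 2 - q 3) = 2 * π := by
  have q01 : q 0 ≠ q 1 := hq 0
  have q12 : q 1 ≠ q 2 := hq 1
  have q23 : q 2 ≠ q 3 := hq 2
  have q30 : q 3 ≠ q 0 := hq 3
  have n1 : NF (q 0) (q 1) (q 2) := hn 0
  have n2 : NF (q 1) (q 2) (q 3) := hn 1
  have n3 : NF (q 2) (q 3) (q 0) := hn 2
  have n0 : NF (q 3) (q 0) (q 1) := hn 3
  have t1 := turn_eq q01 q12.symm n1
  have t2 := turn_eq q12 q23.symm n2
  have t3 := turn_eq q23 q30.symm n3
  have t0 := turn_eq q30 q01.symm n0
  have x1 := ext_angle q01 n1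
  have x2 := ext_angle q12 n2
  have x3 := ext_angle q23 n3
  have x0 := ext_angle q30 n0
  have k02 := quad (hd 0 2 (by decide) (by decide) (by decide))
  have k13 := quad (hd 1 3 (by decide) (by decide) (by decide))
  have z1 := quad (hzd 1 (by decide) (by decide))
  have z2 := quad (hzd 2 (by decide) (by decide))
  have c := corner q30 q01.symm hz hz1 hz2 hR
  have y1 := ext_angle q01.symm hz1
  have y2 := ext_angle q30 hz2
  have sw : An z (q 1) (q 0) = - An z (q 0) (q 1) := An_swap (hzs 0)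
  unfold Wd at hW
  rw [Fin.sum_univ_four] at hW
  simp only [Fin.isValue, Fin.reduceAdd, zero_add] at hW k02 k13 z1 z2
  linarith

theorem angle_sum6 {q : Fin 6 → ℂ} {z : ℂ}
    (hd : ∀ i j : Fin 6, i ≠ j → i + 1 ≠ j → j + 1 ≠ i →
      Disjoint (segment ℝ (q i) (q (i + 1))) (segment ℝ (q j) (q (j + 1))))
    (hq : ∀ i, q i ≠ q (i + 1)) (hn : ∀ i, NF (q i) (q (i + 1)) (q (i + 2)))
    (hz : z ≠ q 0) (hz1 : NF (q 1) (q 0) z) (hz2 : NF (q 5) (q 0) z)
    (hzd : ∀ i : Fin 6, i ≠ 0 → i + 1 ≠ 0 →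
      Disjoint (segment ℝ (q 0) z) (segment ℝ (q i) (q (i + 1))))
    (hzs : ∀ i : Fin 6, z ∉ segment ℝ (q i) (q (i + 1)))
    (hR : ccw (q 1 - q 0) (q 5 - q 0) < ccw (q 1 - q 0) (z - q 0)) (hW : Wd q z = 0) :
    ccw (q 1 - q 0) (q 5 - q 0) + ccw (q 2 - q 1) (q 0 - q 1) + ccw (q 3 - q 2) (q 1 - q 2) +
      ccw (q 4 - q 3) (q 2 - q 3) + ccw (q 5 - q 4) (q 3 - q 4) + ccw (q 0 - q 5) (q 4 - q 5) =
        4 * π := by
  have q01 : q 0 ≠ q 1 := hq 0
  have q12 : q 1 ≠ q 2 := hq 1
  have q23 : q 2 ≠ q 3 := hq 2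
  have q34 : q 3 ≠ q 4 := hq 3
  have q45 : q 4 ≠ q 5 := hq 4
  have q50 : q 5 ≠ q 0 := hq 5
  have n1 : NF (q 0) (q 1) (q 2) := hn 0
  have n2 : NF (q 1) (q 2) (q 3) := hn 1
  have n3 : NF (q 2) (q 3) (q 4) := hn 2
  have n4 : NF (q 3) (q 4) (q 5) := hn 3
  have n5 : NF (q 4) (q 5) (q 0) := hn 4
  have n0 : NF (q 5) (q 0) (q 1) := hn 5
  have t1 := turn_eq q01 q12.symm n1
  have t2 := turn_eq q12 q23.symm n2
  have t3 := turn_eq q23 q34.symm n3
  have t4 := turn_eq q34 q45.symm n4
  have t5 := turn_eq q45 q50.symm n5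
  have t0 := turn_eq q50 q01.symm n0
  have x1 := ext_angle q01 n1
  have x2 := ext_angle q12 n2
  have x3 := ext_angle q23 n3
  have x4 := ext_angle q34 n4
  have x5 := ext_angle q45 n5
  have x0 := ext_angle q50 n0
  have k02 := quad (hd 0 2 (by decide) (by decide) (by decide))
  have k03 := quad (hd 0 3 (by decide) (by decide) (by decide))
  have k04 := quad (hd 0 4 (by decide) (by decide) (by decide))
  have k13 := quad (hd 1 3 (by decide) (by decide) (by decide))
  have k14 := quad (hd 1 4 (by decide) (by decide) (by decide))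
  have k15 := quad (hd 1 5 (by decide) (by decide) (by decide))
  have k24 := quad (hd 2 4 (by decide) (by decide) (by decide))
  have k25 := quad (hd 2 5 (by decide) (by decide) (by decide))
  have k35 := quad (hd 3 5 (by decide) (by decide) (by decide))
  have z1 := quad (hzd 1 (by decide) (by decide))
  have z2 := quad (hzd 2 (by decide) (by decide))
  have z3 := quad (hzd 3 (by decide) (by decide))
  have z4 := quad (hzd 4 (by decide) (by decide))
  have c := corner q50 q01.symm hz hz1 hz2 hR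
  have y1 := ext_angle q01.symm hz1
  have y2 := ext_angle q50 hz2
  have sw : An z (q 1) (q 0) = - An z (q 0) (q 1) := An_swap (hzs 0)
  unfold Wd at hW
  rw [Fin.sum_univ_six] at hW
  simp only [Fin.isValue, Fin.reduceAdd, zero_add] at hW k02 k03 k04 k13 k14 k15 k24 k25 k35 z1 z2 z3 z4
  linarith

end Pool.Agent.Helper50Bend
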