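import Mathlib
import Pool.Agent.Helper50_Bend.Poly

/-!
# Straight-line planar drawings: cycles, winding sums and angle sums
-/

set_option autoImplicit false

namespace Pool.Agent.Helper50Bend

open Complex Set Real

/-- the positions `ρ` give a straight-line planar drawing of `H` -/
structure SL {W : Type} (H : SimpleGraph W) (ρ : W → ℂ) : Prop where
  ne : ∀ x y, H.Adj x y → ρ x ≠ ρ y
  disj : ∀ x y z w, H.Adj x y → H.Adj z w → x ≠ z → x ≠ w → y ≠ z → y ≠ w →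
    Disjoint (segment ℝ (ρ x) (ρ y)) (segment ℝ (ρ z) (ρ w))
  inter : ∀ x y z, H.Adj x y → H.Adj x z → y ≠ z →
    segment ℝ (ρ x) (ρ y) ∩ segment ℝ (ρ x) (ρ z) ⊆ {ρ x}

variable {W : Type} {H : SimpleGraph W} {ρ : W → ℂ}

/-- `c` is a cycle of `H` -/
structure IsCyc {m : ℕ} [NeZero m] (H : SimpleGraph W) (c : Fin m → W) : Prop where
  inj : Function.Injective c
  adj : ∀ k, H.Adj (c k) (c (k + 1))

theorem SL.notMem (hS : SL H ρ) {x x' a b : W} (hx : H.Adj x x') (hab : H.Adj a b) (h1 : x ≠ a)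
    (h2 : x ≠ b) : ρ x ∉ segment ℝ (ρ a) (ρ b) := by
  intro hmem
  by_cases h3 : x' = a
  · subst h3
    have := hS.inter x' x b hx.symm hab h2 ⟨right_mem_segment ℝ _ _, hmem⟩
    exact hS.ne x x' hx this
  · by_cases h4 : x' = b
    · subst h4
      rw [segment_symm] at hmem
      have := hS.inter x' x a hx.symm hab.symm h1 ⟨right_mem_segment ℝ _ _, hmem⟩
      exact hS.ne x x' hx this
    · exact Set.disjoint_left.1 (hS.disj x x' a b hx hab h1 h2 h3 h4)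
        (left_mem_segment ℝ _ _) hmem

/-- one step of a walk that avoids the cycle `c` -/
def Step {m : ℕ} (H : SimpleGraph W) (c : Fin m → W) (x y : W) : Prop :=
  H.Adj x y ∧ (∀ k, c k ≠ x) ∧ ∀ k, c k ≠ y

theorem SL.wd_step (hS : SL H ρ) {m : ℕ} [NeZero m] {c : Fin m → W} (hc : IsCyc H c) {x y : W}
    (h : Step H c x y) : Wd (ρ ∘ c) (ρ x) = Wd (ρ ∘ c) (ρ y) := by
  obtain ⟨h1, h2, h3⟩ := h
  apply Wd_segment
  intro k
  exact hS.disj x y (c k) (c (k + 1)) h1 (hc.adj k) (h2 k).symm (h2 (k + 1)).symm (h3 k).symm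
    (h3 (k + 1)).symm

theorem SL.wd_reach (hS : SL H ρ) {m : ℕ} [NeZero m] {c : Fin m → W} (hc : IsCyc H c) {x y : W}
    (h : Relation.ReflTransGen (Step H c) x y) : Wd (ρ ∘ c) (ρ x) = Wd (ρ ∘ c) (ρ y) := by
  induction h with
  | refl => rfl
  | tail _ h2 ih => rw [ih]; exact hS.wd_step hc h2

/-- Of two disjoint cycles with a common exterior vertex `z`, at most one winds around `z`. -/
theorem SL.not_both (hS : SL H ρ) {m m' : ℕ} [NeZero m] [NeZero m'] {c : Fin m → W}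
    {c' : Fin m' → W} (hc : IsCyc H c) (hc' : IsCyc H c') (hcc : ∀ i j, c i ≠ c' j) {z : W}
    (h : ∀ j, Relation.ReflTransGen (Step H c) z (c' j))
    (h' : ∀ i, Relation.ReflTransGen (Step H c') z (c i)) :
    Wd (ρ ∘ c) (ρ z) = 0 ∨ Wd (ρ ∘ c') (ρ z) = 0 := by
  by_contra hcon
  push Not at hcon
  obtain ⟨n1, n2⟩ := hcon
  obtain ⟨i, hi⟩ := Finite.exists_max (fun k => (ρ (c k)).re)
  obtain ⟨j, hj⟩ := Finite.exists_max (fun k => (ρ (c' k)).re)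
  have a1 : (ρ (c' j)).re < (ρ (c i)).re := by
    by_contra hlt
    push Not at hlt
    apply n1
    rw [hS.wd_reach hc (h j)]
    apply Wd_outside
    · intro k
      exact (hi k).trans hlt
    · intro k
      exact hS.notMem (hc'.adj j) (hc.adj k) (hcc k j).symm (hcc (k + 1) j).symm
  have a2 : (ρ (c i)).re < (ρ (c' j)).re := by
    by_contra hlt
    push Not at hlt
    apply n2
    rw [hS.wd_reach hc' (h' i)]
    apply Wd_outside
    · intro k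
      exact (hj k).trans hlt
    · intro k
      exact hS.notMem (hc.adj i) (hc'.adj k) (hcc i k) (hcc i (k + 1))
  exact lt_asymm a1 a2

theorem SL.nf (hS : SL H ρ) {x y z : W} (hy : H.Adj x y) (hz : H.Adj x z) (hyz : y ≠ z) :
    NF (ρ y) (ρ x) (ρ z) := by
  apply nf_of_inter (hS.ne y x hy.symm) (hS.ne z x hz.symm)
  rw [segment_symm ℝ (ρ y) (ρ x)]
  exact hS.inter x y z hy hz hyz

theorem SL.sum4 (hS : SL H ρ) {c : Fin 4 → W} (hc : IsCyc H c) {z : W} (hz : H.Adj (c 0) z)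
    (hzc : ∀ k, c k ≠ z)
    (hR : ccw (ρ (c 1) - ρ (c 0)) (ρ (c 3) - ρ (c 0)) < ccw (ρ (c 1) - ρ (c 0)) (ρ z - ρ (c 0)))
    (hW : Wd (ρ ∘ c) (ρ z) = 0) :
    ccw (ρ (c 1) - ρ (c 0)) (ρ (c 3) - ρ (c 0)) + ccw (ρ (c 2) - ρ (c 1)) (ρ (c 0) - ρ (c 1)) +
      ccw (ρ (c 3) - ρ (c 2)) (ρ (c 1) - ρ (c 2)) +
      ccw (ρ (c 0) - ρ (c 3)) (ρ (c 2) - ρ (c 3)) = 2 * π := by
  have hne : ∀ i j : Fin 4, i ≠ j → c i ≠ c j := fun i j h h2 => h (hc.inj h2)
  have h30 : H.Adj (c 3) (c 0) := hc.adj 3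
  apply angle_sum4 (q := ρ ∘ c) (z := ρ z) _ _ _ _ _ _ _ _ hR hW
  · intro i j h1 h2 h3
    exact hS.disj (c i) (c (i + 1)) (c j) (c (j + 1)) (hc.adj i) (hc.adj j) (hne _ _ h1)
      (hne _ _ h3.symm) (hne _ _ h2) (hne _ _ (fun h => h1 (add_right_cancel h)))
  · intro i
    exact hS.ne _ _ (hc.adj i)
  · intro i
    have h2 : i ≠ i + 2 := by revert i; decide
    have h3 : i + 1 + 1 = i + 2 := by revert i; decide
    have h4 := hc.adj (i + 1)
    rw [h3] at h4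
    exact hS.nf (hc.adj i).symm h4 (hne _ _ h2)
  · exact hS.ne _ _ hz.symm
  · exact hS.nf (hc.adj 0) hz (hzc 1)
  · exact hS.nf h30.symm hz (hzc 3)
  · intro i h1 h2
    exact hS.disj (c 0) z (c i) (c (i + 1)) hz (hc.adj i) (hne _ _ h1.symm) (hne _ _ h2.symm)
      (hzc i).symm (hzc (i + 1)).symm
  · intro i
    exact hS.notMem hz.symm (hc.adj i) (hzc i).symm (hzc (i + 1)).symm

theorem SL.sum6 (hS : SL H ρ) {c : Fin 6 → W} (hc : IsCyc H c) {z : W} (hz : H.Adj (c 0) z)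
    (hzc : ∀ k, c k ≠ z)
    (hR : ccw (ρ (c 1) - ρ (c 0)) (ρ (c 5) - ρ (c 0)) < ccw (ρ (c 1) - ρ (c 0)) (ρ z - ρ (c 0)))
    (hW : Wd (ρ ∘ c) (ρ z) = 0) :
    ccw (ρ (c 1) - ρ (c 0)) (ρ (c 5) - ρ (c 0)) + ccw (ρ (c 2) - ρ (c 1)) (ρ (c 0) - ρ (c 1)) +
      ccw (ρ (c 3) - ρ (c 2)) (ρ (c 1) - ρ (c 2)) +
      ccw (ρ (c 4) - ρ (c 3)) (ρ (c 2) - ρ (c 3)) +
      ccw (ρ (c 5) - ρ (c 4)) (ρ (c 3) - ρ (c 4)) +
      ccw (ρ (c 0) - ρ (c 5)) (ρ (c 4) - ρ (c 5)) = 4 * π := by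
  have hne : ∀ i j : Fin 6, i ≠ j → c i ≠ c j := fun i j h h2 => h (hc.inj h2)
  have h50 : H.Adj (c 5) (c 0) := hc.adj 5
  apply angle_sum6 (q := ρ ∘ c) (z := ρ z) _ _ _ _ _ _ _ _ hR hW
  · intro i j h1 h2 h3
    exact hS.disj (c i) (c (i + 1)) (c j) (c (j + 1)) (hc.adj i) (hc.adj j) (hne _ _ h1)
      (hne _ _ h3.symm) (hne _ _ h2) (hne _ _ (fun h => h1 (add_right_cancel h)))
  · intro i
    exact hS.ne _ _ (hc.adj i)
  · intro i
    have h2 : i ≠ i + 2 := by revert i; decide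
    have h3 : i + 1 + 1 = i + 2 := by revert i; decide
    have h4 := hc.adj (i + 1)
    rw [h3] at h4
    exact hS.nf (hc.adj i).symm h4 (hne _ _ h2)
  · exact hS.ne _ _ hz.symm
  · exact hS.nf (hc.adj 0) hz (hzc 1)
  · exact hS.nf h50.symm hz (hzc 5)
  · intro i h1 h2
    exact hS.disj (c 0) z (c i) (c (i + 1)) hz (hc.adj i) (hne _ _ h1.symm) (hne _ _ h2.symm)
      (hzc i).symm (hzc (i + 1)).symm
  · intro i
    exact hS.notMem hz.symm (hc.adj i) (hzc i).symm (hzc (i + 1)).symm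

end Pool.Agent.Helper50Bend
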