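import Mathlib
import Pool.Agent.Helper50_Bend.SL

/-!
# Drawings with at most one bend on the exclusive edges are straight-line drawings of a subdivision
-/

set_option autoImplicit false

namespace Pool.Agent.Helper50Bend

open Complex Set Real

variable {V E : Type}

/-- the graph `S` with a further path of length two from `s e` to `t e` for every `e` -/
def subGraph (S : SimpleGraph V) (s t : E → V) : SimpleGraph (V ⊕ E) :=
  SimpleGraph.fromRel fun a b => match a, b with
    | Sum.inl v, Sum.inl w => S.Adj v w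
    | Sum.inl v, Sum.inr e => v = s e ∨ v = t e
    | _, _ => False

theorem sub_ll {S : SimpleGraph V} {s t : E → V} {v w : V} :
    (subGraph S s t).Adj (Sum.inl v) (Sum.inl w) ↔ S.Adj v w := by
  unfold subGraph
  rw [SimpleGraph.fromRel_adj]
  constructor
  · rintro ⟨_, h | h⟩
    · exact h
    · exact h.symm
  · intro h
    exact ⟨fun h2 => h.ne (Sum.inl.inj h2), Or.inl h⟩

theorem sub_lr {S : SimpleGraph V} {s t : E → V} {v : V} {e : E} :
    (subGraph S s t).Adj (Sum.inl v) (Sum.inr e) ↔ (v = s e ∨ v = t e) := by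
  unfold subGraph
  rw [SimpleGraph.fromRel_adj]
  constructor
  · rintro ⟨_, h | h⟩
    · exact h
    · exact h.elim
  · intro h
    exact ⟨by simp, Or.inl h⟩

theorem sub_rl {S : SimpleGraph V} {s t : E → V} {v : V} {e : E} :
    (subGraph S s t).Adj (Sum.inr e) (Sum.inl v) ↔ (v = s e ∨ v = t e) := by
  rw [SimpleGraph.adj_comm, sub_lr]

theorem sub_rr {S : SimpleGraph V} {s t : E → V} {e f : E} :
    ¬ (subGraph S s t).Adj (Sum.inr e) (Sum.inr f) := by
  unfold subGraph
  rw [SimpleGraph.fromRel_adj]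
  rintro ⟨_, h | h⟩
  · exact h
  · exact h

/-- the bend of the exclusive edge `vw`, or its midpoint if it is drawn straight -/
noncomputable def mid (D : Drawing V) (v w : V) : ℂ :=
  (D.bends v w).headD (AffineMap.lineMap (D.pos v) (D.pos w) (1 / 2 : ℝ))

theorem seg_mid {a b : ℂ} :
    segment ℝ a b = segment ℝ a (AffineMap.lineMap a b (1 / 2 : ℝ)) ∪
      segment ℝ (AffineMap.lineMap a b (1 / 2 : ℝ)) b := by
  apply Set.Subset.antisymm
  · intro z hz
    rw [segment_eq_image_lineMap] at hz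
    obtain ⟨r, ⟨hr0, hr1⟩, rfl⟩ := hz
    rcases le_total r (1 / 2) with h | h
    · left
      rw [segment_eq_image_lineMap]
      refine ⟨2 * r, ⟨by linarith, by linarith⟩, ?_⟩
      simp only [AffineMap.lineMap_apply, vsub_eq_sub, vadd_eq_add, Complex.real_smul]
      push_cast
      ring
    · right
      rw [segment_eq_image_lineMap]
      refine ⟨2 * r - 1, ⟨by linarith, by linarith⟩, ?_⟩
      simp only [AffineMap.lineMap_apply, vsub_eq_sub, vadd_eq_add, Complex.real_smul]
      push_cast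
      ring
  · have hm : (AffineMap.lineMap a b (1 / 2 : ℝ) : ℂ) ∈ segment ℝ a b := by
      rw [segment_eq_image_lineMap]
      exact ⟨1 / 2, ⟨by norm_num, by norm_num⟩, rfl⟩
    apply Set.union_subset
    · exact (convex_segment a b).segment_subset (left_mem_segment ℝ a b) hm
    · exact (convex_segment a b).segment_subset hm (right_mem_segment ℝ a b)

theorem inter_mid {a b : ℂ} (hab : a ≠ b) :
    segment ℝ a (AffineMap.lineMap a b (1 / 2 : ℝ)) ∩
      segment ℝ (AffineMap.lineMap a b (1 / 2 : ℝ)) b ⊆ {(AffineMap.lineMap a b (1 / 2 : ℝ) : ℂ)} := by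
  rintro z ⟨h1, h2⟩
  rw [segment_eq_image_lineMap] at h1 h2
  obtain ⟨r, ⟨hr0, hr1⟩, hr⟩ := h1
  obtain ⟨r', ⟨hr0', hr1'⟩, hr'⟩ := h2
  have h3 : ((r : ℂ) - (1 + r')) * (b - a) = 0 := by
    have := hr.trans hr'.symm
    simp only [AffineMap.lineMap_apply, vsub_eq_sub, vadd_eq_add, Complex.real_smul] at this
    push_cast at this
    linear_combination 2 * this
  have h4 : (r : ℂ) - (1 + r') = 0 := by
    rcases mul_eq_zero.1 h3 with h | h
    · exact h
    · exact absurd (sub_eq_zero.1 h).symm hab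
  have h5 : r - (1 + r') = 0 := by exact_mod_cast h4
  have h6 : r' = 0 := by linarith
  rw [← hr', h6]
  simp

theorem mid_ne {a b : ℂ} (hab : a ≠ b) :
    a ≠ AffineMap.lineMap a b (1 / 2 : ℝ) ∧ (AffineMap.lineMap a b (1 / 2 : ℝ) : ℂ) ≠ b := by
  constructor
  · intro h
    apply hab
    simp only [AffineMap.lineMap_apply, vsub_eq_sub, vadd_eq_add, Complex.real_smul] at h
    push_cast at h
    linear_combination 2 * h
  · intro h
    apply hab
    simp only [AffineMap.lineMap_apply, vsub_eq_sub, vadd_eq_add, Complex.real_smul] at h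
    push_cast at h
    linear_combination 2 * h

/-- the facts about a curve with at most one bend -/
theorem one_bend {D : Drawing V} {v w : V} (hs : SimplePoly (D.corners v w))
    (hl : (D.bends v w).length ≤ 1) :
    D.curve v w = segment ℝ (D.pos v) (mid D v w) ∪ segment ℝ (mid D v w) (D.pos w) ∧
    D.pos v ≠ mid D v w ∧ mid D v w ≠ D.pos w ∧
    segment ℝ (D.pos v) (mid D v w) ∩ segment ℝ (mid D v w) (D.pos w) ⊆ {mid D v w} ∧
    (∃ r : ℝ, 0 < r ∧ D.dir v w = (r : ℂ) * (mid D v w - D.pos v)) ∧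
    (∃ r : ℝ, 0 < r ∧ D.dir w v = (r : ℂ) * (mid D v w - D.pos w)) := by
  have hsym := D.symm v w
  unfold Drawing.curve Drawing.corners at *
  unfold mid Drawing.dir
  rcases hb : D.bends v w with _ | ⟨b, l⟩
  · rw [hb] at hs hsym
    simp only [List.nil_append, SimplePoly, polyline, Set.inter_empty, Set.empty_subset, and_true,
      List.reverse_nil, Set.union_empty, true_and] at hs hsym ⊢
    rw [hsym]
    simp only [List.headD_nil]
    obtain ⟨m1, m2⟩ := mid_ne hs
    refine ⟨seg_mid, m1, m2, inter_mid hs, ⟨2, by norm_num, ?_⟩, ⟨2, by norm_num, ?_⟩⟩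
    · simp only [AffineMap.lineMap_apply, vsub_eq_sub, vadd_eq_add, Complex.real_smul]
      push_cast
      ring
    · simp only [AffineMap.lineMap_apply, vsub_eq_sub, vadd_eq_add, Complex.real_smul]
      push_cast
      ring
  · have hl0 : l = [] := by
      rw [hb] at hl
      simp at hl
      exact hl
    subst hl0
    rw [hb] at hs hsym
    simp only [List.cons_append, List.nil_append, SimplePoly, polyline, Set.inter_empty,
      Set.empty_subset, and_true, List.reverse_cons, List.reverse_nil, Set.union_empty,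
      true_and] at hs hsym ⊢
    rw [hsym]
    simp only [List.headD_cons]
    obtain ⟨h1, h2, h3⟩ := hs
    refine ⟨?_, h1, h3, h2, ⟨1, by norm_num, by simp⟩, ⟨1, by norm_num, by simp⟩⟩
    trivial

/-- the facts about a straight edge -/
theorem zero_bend {D : Drawing V} {v w : V} (hs : SimplePoly (D.corners v w))
    (hl : (D.bends v w).length ≤ 0) :
    D.curve v w = segment ℝ (D.pos v) (D.pos w) ∧ D.pos v ≠ D.pos w ∧
      D.dir v w = D.pos w - D.pos v := by
  have hb : D.bends v w = [] := by simpa using hl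
  unfold Drawing.curve Drawing.corners at *
  unfold Drawing.dir
  rw [hb] at hs ⊢
  simp only [List.nil_append, SimplePoly, polyline, Set.inter_empty, Set.empty_subset, and_true,
    Set.union_empty, List.headD_nil] at hs ⊢
  exact ⟨trivial, hs⟩

/-- positions of the vertices of the subdivision -/
noncomputable def rho (D : Drawing V) (s t : E → V) : V ⊕ E → ℂ
  | Sum.inl v => D.pos v
  | Sum.inr e => mid D (s e) (t e)

theorem sl_of_drawing {D : Drawing V} {G S : SimpleGraph V} {s t : E → V}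
    (hpl : D.PlanarOn G) (hSG : S ≤ G) (h0 : ∀ v w, S.Adj v w → (D.bends v w).length ≤ 0)
    (hG : ∀ e, G.Adj (s e) (t e)) (hnS : ∀ e, ¬ S.Adj (s e) (t e))
    (h1 : ∀ e, (D.bends (s e) (t e)).length ≤ 1)
    (hst : ∀ e f, e ≠ f → s(s e, t e) ≠ s(s f, t f)) :
    SL (subGraph S s t) (rho D s t) := by
  obtain ⟨hsp, hv, hx⟩ := hpl
  -- straight edges
  have A1 : ∀ v w, S.Adj v w → D.curve v w = segment ℝ (D.pos v) (D.pos w) ∧ D.pos v ≠ D.pos w :=
    fun v w h => ⟨(zero_bend (hsp v w (hSG h)) (h0 v w h)).1,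
      (zero_bend (hsp v w (hSG h)) (h0 v w h)).2.1⟩
  -- half edges
  have B : ∀ e, _ := fun e => one_bend (hsp _ _ (hG e)) (h1 e)
  have half_sub : ∀ v e, (v = s e ∨ v = t e) →
      segment ℝ (D.pos v) (mid D (s e) (t e)) ⊆ D.curve (s e) (t e) := by
    rintro v e (rfl | rfl)
    · rw [(B e).1]
      exact Set.subset_union_left
    · rw [(B e).1, segment_symm]
      exact Set.subset_union_right
  have half_ne : ∀ v e, (v = s e ∨ v = t e) → D.pos v ≠ mid D (s e) (t e) := by
    rintro v e (rfl | rfl)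
    · exact (B e).2.1
    · exact (B e).2.2.1.symm
  have half_end : ∀ u v e, (v = s e ∨ v = t e) → (u = s e ∨ u = t e) →
      D.pos u ∈ segment ℝ (D.pos v) (mid D (s e) (t e)) → u = v := by
    intro u v e hv' hu hmem
    rcases hv' with rfl | rfl
    · rcases hu with rfl | rfl
      · rfl
      · exfalso
        exact (B e).2.2.1.symm ((B e).2.2.2.1 ⟨hmem, right_mem_segment ℝ _ _⟩)
    · rcases hu with rfl | rfl
      · exfalso
        rw [segment_symm] at hmem
        exact (B e).2.1 ((B e).2.2.2.1 ⟨left_mem_segment ℝ _ _, hmem⟩)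
      · rfl
  have hne : ∀ v w e, S.Adj v w → s(v, w) ≠ s(s e, t e) := by
    intro v w e h h2
    rw [Sym2.eq_iff] at h2
    rcases h2 with ⟨rfl, rfl⟩ | ⟨rfl, rfl⟩
    · exact hnS e h
    · exact hnS e h.symm
  -- a straight edge and a half edge
  have C1 : ∀ v w x e, S.Adj v w → (x = s e ∨ x = t e) →
      ∀ z ∈ segment ℝ (D.pos v) (D.pos w) ∩ segment ℝ (D.pos x) (mid D (s e) (t e)),
        z = D.pos x ∧ (x = v ∨ x = w) := by
    rintro v w x e hvw hxe z ⟨hz1, hz2⟩
    rw [← (A1 v w hvw).1] at hz1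
    obtain ⟨u, rfl, hu1, hu2⟩ := hx v w (s e) (t e) (hSG hvw) (hG e) (hne v w e hvw) z
      ⟨hz1, half_sub x e hxe hz2⟩
    have := half_end u x e hxe hu2 hz2
    subst this
    exact ⟨rfl, hu1⟩
  -- two half edges
  have C2 : ∀ x y e f, e ≠ f → (x = s e ∨ x = t e) → (y = s f ∨ y = t f) →
      ∀ z ∈ segment ℝ (D.pos x) (mid D (s e) (t e)) ∩ segment ℝ (D.pos y) (mid D (s f) (t f)),
        z = D.pos x ∧ x = y := by
    rintro x y e f hef hxe hyf z ⟨hz1, hz2⟩
    obtain ⟨u, rfl, hu1, hu2⟩ := hx (s e) (t e) (s f) (t f) (hG e) (hG f) (hst e f hef) z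
      ⟨half_sub x e hxe hz1, half_sub y f hyf hz2⟩
    have h3 := half_end u x e hxe hu1 hz1
    have h4 := half_end u y f hyf hu2 hz2
    subst h3
    exact ⟨rfl, h4⟩
  -- two straight edges
  have C0 : ∀ v w x y, S.Adj v w → S.Adj x y → s(v, w) ≠ s(x, y) →
      ∀ z ∈ segment ℝ (D.pos v) (D.pos w) ∩ segment ℝ (D.pos x) (D.pos y),
        ∃ u, z = D.pos u ∧ (u = v ∨ u = w) ∧ (u = x ∨ u = y) := by
    rintro v w x y hvw hxy hne' z ⟨hz1, hz2⟩
    rw [← (A1 v w hvw).1] at hz1
    rw [← (A1 x y hxy).1] at hz2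
    exact hx v w x y (hSG hvw) (hSG hxy) hne' z ⟨hz1, hz2⟩
  refine ⟨?_, ?_, ?_⟩
  · rintro (v | e) (w | f) h
    · exact (A1 v w (sub_ll.1 h)).2
    · exact half_ne v f (sub_lr.1 h)
    · exact (half_ne w e (sub_rl.1 h)).symm
    · exact (sub_rr h).elim
  · rintro (v | e) (w | e') (x | f) (y | f') hvw hxy n1 n2 n3 n4
    · rw [Set.disjoint_left]
      intro z hz1 hz2
      obtain ⟨u, _, hu1, hu2⟩ := C0 v w x y (sub_ll.1 hvw) (sub_ll.1 hxy) (by
        intro h
        rw [Sym2.eq_iff] at h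
        rcases h with ⟨rfl, rfl⟩ | ⟨rfl, rfl⟩
        · exact n1 rfl
        · exact n2 rfl) z ⟨hz1, hz2⟩
      rcases hu1 with rfl | rfl <;> rcases hu2 with rfl | rfl
      · exact n1 rfl
      · exact n2 rfl
      · exact n3 rfl
      · exact n4 rfl
    · rw [Set.disjoint_left]
      intro z hz1 hz2
      obtain ⟨_, h⟩ := C1 v w x f' (sub_ll.1 hvw) (sub_lr.1 hxy) z ⟨hz1, hz2⟩
      rcases h with rfl | rfl
      · exact n1 rfl
      · exact n3 rfl
    · rw [Set.disjoint_left]
      intro z hz1 hz2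
      rw [segment_symm] at hz2
      obtain ⟨_, h⟩ := C1 v w y f (sub_ll.1 hvw) (sub_rl.1 hxy) z ⟨hz1, hz2⟩
      rcases h with rfl | rfl
      · exact n2 rfl
      · exact n4 rfl
    · exact (sub_rr hxy).elim
    · rw [Set.disjoint_left]
      intro z hz1 hz2
      obtain ⟨_, h⟩ := C1 x y v e' (sub_ll.1 hxy) (sub_lr.1 hvw) z ⟨hz2, hz1⟩
      rcases h with rfl | rfl
      · exact n1 rfl
      · exact n2 rfl
    · rw [Set.disjoint_left]
      intro z hz1 hz2
      obtain ⟨_, h⟩ := C2 v x e' f' (fun h => n4 (by rw [h])) (sub_lr.1 hvw) (sub_lr.1 hxy) z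
        ⟨hz1, hz2⟩
      exact n1 (by rw [h])
    · rw [Set.disjoint_left]
      intro z hz1 hz2
      rw [segment_symm] at hz2
      obtain ⟨_, h⟩ := C2 v y e' f (fun h => n3 (by rw [h])) (sub_lr.1 hvw) (sub_rl.1 hxy) z
        ⟨hz1, hz2⟩
      exact n2 (by rw [h])
    · exact (sub_rr hxy).elim
    · rw [Set.disjoint_left]
      intro z hz1 hz2
      rw [segment_symm] at hz1
      obtain ⟨_, h⟩ := C1 x y w e (sub_ll.1 hxy) (sub_rl.1 hvw) z ⟨hz2, hz1⟩
      rcases h with rfl | rfl
      · exact n3 rfl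
      · exact n4 rfl
    · rw [Set.disjoint_left]
      intro z hz1 hz2
      rw [segment_symm] at hz1
      obtain ⟨_, h⟩ := C2 w x e f' (fun h => n2 (by rw [h])) (sub_rl.1 hvw) (sub_lr.1 hxy) z
        ⟨hz1, hz2⟩
      exact n3 (by rw [h])
    · rw [Set.disjoint_left]
      intro z hz1 hz2
      rw [segment_symm] at hz1 hz2
      obtain ⟨_, h⟩ := C2 w y e f (fun h => n1 (by rw [h])) (sub_rl.1 hvw) (sub_rl.1 hxy) z
        ⟨hz1, hz2⟩
      exact n4 (by rw [h])
    · exact (sub_rr hxy).elim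
    · exact (sub_rr hvw).elim
    · exact (sub_rr hvw).elim
    · exact (sub_rr hvw).elim
    · exact (sub_rr hvw).elim
  · rintro (v | e) (w | f) (x | g) hvw hvx hwx z ⟨hz1, hz2⟩
    · obtain ⟨u, rfl, hu1, hu2⟩ := C0 v w v x (sub_ll.1 hvw) (sub_ll.1 hvx) (by
        intro h
        rw [Sym2.eq_iff] at h
        rcases h with ⟨_, rfl⟩ | ⟨h3, h4⟩
        · exact hwx rfl
        · exact hwx (by rw [h4, ← h3])) z ⟨hz1, hz2⟩
      rcases hu1 with rfl | rfl
      · rfl
      · rcases hu2 with rfl | rfl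
        · rfl
        · exact (hwx rfl).elim
    · exact (C1 v w v g (sub_ll.1 hvw) (sub_lr.1 hvx) z ⟨hz1, hz2⟩).1
    · exact (C1 v x v f (sub_ll.1 hvx) (sub_lr.1 hvw) z ⟨hz2, hz1⟩).1
    · exact (C2 v v f g (fun h => hwx (by rw [h])) (sub_lr.1 hvw) (sub_lr.1 hvx) z ⟨hz1, hz2⟩).1
    · have h3 := sub_rl.1 hvw
      have h4 := sub_rl.1 hvx
      change z ∈ segment ℝ (mid D (s e) (t e)) (D.pos w) at hz1
      change z ∈ segment ℝ (mid D (s e) (t e)) (D.pos x) at hz2
      rcases h3 with rfl | rfl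
      · rcases h4 with rfl | rfl
        · exact (hwx rfl).elim
        · rw [segment_symm] at hz1
          exact (B e).2.2.2.1 ⟨hz1, hz2⟩
      · rcases h4 with rfl | rfl
        · rw [segment_symm] at hz2
          exact (B e).2.2.2.1 ⟨hz2, hz1⟩
        · exact (hwx rfl).elim
    · exact (sub_rr hvx).elim
    · exact (sub_rr hvw).elim
    · exact (sub_rr hvw).elim

end Pool.Agent.Helper50Bend
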