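import Mathlib
import Pool.Agent.Helper50_Bend.Sub
import Pool.Agent.Helper50_Bend.Ex

/-!
# The example has no drawing with straight shared edges and one bend per exclusive edge
-/

set_option autoImplicit false

namespace Pool.Agent.Helper50Bend

open Complex Set Real Relation

theorem ccw_strict {u v w : ℂ} (hu : u ≠ 0) (hv : v ≠ 0) (hw : w ≠ 0) (h : ccw u v ≤ ccw u w)
    (hvw : ccw v w < 2 * π) : ccw u v < ccw u w := by
  rcases h.lt_or_eq with h1 | h1
  · exact h1
  · exfalso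
    have e : ((ccw v w : ℝ) : Real.Angle) = ((2 * π : ℝ) : Real.Angle) := by
      have h2 : (((ccw u v : ℝ)) : Real.Angle) = ((ccw u w : ℝ) : Real.Angle) := by rw [h1]
      rw [ccw_angle hu hv, ccw_angle hu hw] at h2
      have h3 : (arg v : Real.Angle) = (arg w : Real.Angle) := sub_left_inj.1 h2
      rw [ccw_angle hv hw, h3, sub_self, Real.Angle.coe_two_pi]
    have h4 := eq_of_angle_eq e (by
      have := ccw_pos v w
      rw [abs_lt]
      constructor <;> linarith)
    linarith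

/-- the direction of a drawn edge is a positive multiple of the direction to `x` -/
def DirTo (D : Drawing VV) (v w : VV) (x : ℂ) : Prop :=
  ∃ r : ℝ, 0 < r ∧ D.dir v w = (r : ℂ) * (x - D.pos v)

theorem le_of_dir {D : Drawing VV} {v a b c : VV} {x y z : ℂ} (ha : DirTo D v a x)
    (hb : DirTo D v b y) (hc : DirTo D v c z)
    (h : ccw (D.dir v a) (D.dir v b) ≤ ccw (D.dir v a) (D.dir v c)) :
    ccw (x - D.pos v) (y - D.pos v) ≤ ccw (x - D.pos v) (z - D.pos v) := by
  obtain ⟨r, hr, ha⟩ := ha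
  obtain ⟨s, hs, hb⟩ := hb
  obtain ⟨t, ht, hc⟩ := hc
  rw [ha, hb, hc, ccw_real_mul hr hs, ccw_real_mul hr ht] at h
  exact h

/-- the leg of a vertex of a subdivision -/
def leg {E : Type} (f : E → Fin 4) : VV ⊕ E → Option (Fin 4)
  | Sum.inl none => none
  | Sum.inl (some (l, _)) => some l
  | Sum.inr e => some (f e)

theorem step_of_leg {E : Type} {H : SimpleGraph (VV ⊕ E)} {f : E → Fin 4} {m : ℕ}
    {c : Fin m → VV ⊕ E} {l : Fin 4} (hc : ∀ k, leg f (c k) = some l) {x y : VV ⊕ E}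
    (h : H.Adj x y) (hx : leg f x ≠ some l) (hy : leg f y ≠ some l) : Step H c x y :=
  ⟨h, fun k hk => hx (by rw [← hk]; exact hc k), fun k hk => hy (by rw [← hk]; exact hc k)⟩

section Spider

variable {E : Type} {s t : E → VV}

theorem a0 (l : Fin 4) : (subGraph GS s t).Adj (Sum.inl none) (Sum.inl (some (l, 0))) :=
  sub_ll.2 (by revert l; decide +kernel)

theorem a1 (l : Fin 4) :
    (subGraph GS s t).Adj (Sum.inl (some (l, 0))) (Sum.inl (some (l, 1))) :=
  sub_ll.2 (by revert l; decide +kernel)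

theorem a2 (l : Fin 4) :
    (subGraph GS s t).Adj (Sum.inl (some (l, 1))) (Sum.inl (some (l, 2))) :=
  sub_ll.2 (by revert l; decide +kernel)

theorem a3 (l : Fin 4) :
    (subGraph GS s t).Adj (Sum.inl (some (l, 2))) (Sum.inl (some (l, 3))) :=
  sub_ll.2 (by revert l; decide +kernel)

theorem a4 (l : Fin 4) :
    (subGraph GS s t).Adj (Sum.inl (some (l, 3))) (Sum.inl (some (l, 4))) :=
  sub_ll.2 (by revert l; decide +kernel)

theorem a5 (l : Fin 4) :
    (subGraph GS s t).Adj (Sum.inl (some (l, 4))) (Sum.inl (some (l, 5))) :=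
  sub_ll.2 (by revert l; decide +kernel)

theorem reach_leg {f : E → Fin 4} {m : ℕ} {c : Fin m → VV ⊕ E} {l l' : Fin 4} (hll : l ≠ l')
    (hc : ∀ k, leg f (c k) = some l) (k : Fin 6) :
    ReflTransGen (Step (subGraph GS s t) c) (Sum.inl none) (Sum.inl (some (l', k))) := by
  have hn : leg f (Sum.inl none : VV ⊕ E) ≠ some l := by simp [leg]
  have hk : ∀ k : Fin 6, leg f (Sum.inl (some (l', k)) : VV ⊕ E) ≠ some l := by
    intro k h
    exact hll (Option.some.inj h).symm
  have r0 : ReflTransGen (Step (subGraph GS s t) c) (Sum.inl none) (Sum.inl (some (l', 0))) :=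
    ReflTransGen.single (step_of_leg hc (a0 l') hn (hk 0))
  have r1 := r0.tail (step_of_leg hc (a1 l') (hk 0) (hk 1))
  have r2 := r1.tail (step_of_leg hc (a2 l') (hk 1) (hk 2))
  have r3 := r2.tail (step_of_leg hc (a3 l') (hk 2) (hk 3))
  have r4 := r3.tail (step_of_leg hc (a4 l') (hk 3) (hk 4))
  have r5 := r4.tail (step_of_leg hc (a5 l') (hk 4) (hk 5))
  fin_cases k
  · exact r0
  · exact r1
  · exact r2
  · exact r3
  · exact r4
  · exact r5

theorem reach_any {f : E → Fin 4} (hf : ∀ e, ∃ k : Fin 6, s e = some (f e, k)) {m : ℕ}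
    {c : Fin m → VV ⊕ E} {l l' : Fin 4} (hll : l ≠ l') (hc : ∀ k, leg f (c k) = some l)
    (x : VV ⊕ E) (hx : leg f x = some l') :
    ReflTransGen (Step (subGraph GS s t) c) (Sum.inl none) x := by
  rcases x with (_ | ⟨l'', k⟩) | e
  · simp [leg] at hx
  · have : l'' = l' := Option.some.inj hx
    subst this
    exact reach_leg hll hc k
  · obtain ⟨k, hk⟩ := hf e
    have he : f e = l' := Option.some.inj hx
    have h1 := reach_leg (s := s) (t := t) hll hc k
    refine h1.tail (step_of_leg hc ?_ ?_ ?_)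
    · rw [sub_lr]
      left
      rw [hk, he]
    · intro h
      exact hll (Option.some.inj h).symm
    · rw [hx]
      intro h
      exact hll (Option.some.inj h).symm

end Spider

/-- ends of the exclusive edges of the first graph -/
def s1 : Fin 4 × Bool → VV
  | (l, false) => some (l, 0)
  | (l, true) => some (l, 2)

def t1 : Fin 4 × Bool → VV
  | (l, false) => some (l, 2)
  | (l, true) => some (l, 4)

/-- ends of the exclusive edges of the second graph -/
def s2 (l : Fin 4) : VV := some (l, 0)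

def t2 (l : Fin 4) : VV := some (l, 4)

/-- the three cycles on the leg `l` -/
def ca (l : Fin 4) : Fin 4 → VV ⊕ (Fin 4 × Bool) :=
  ![Sum.inl (some (l, 0)), Sum.inr (l, false), Sum.inl (some (l, 2)), Sum.inl (some (l, 1))]

def cb (l : Fin 4) : Fin 4 → VV ⊕ (Fin 4 × Bool) :=
  ![Sum.inl (some (l, 2)), Sum.inr (l, true), Sum.inl (some (l, 4)), Sum.inl (some (l, 3))]

def cc (l : Fin 4) : Fin 6 → VV ⊕ Fin 4 :=
  ![Sum.inl (some (l, 0)), Sum.inl (some (l, 1)), Sum.inl (some (l, 2)), Sum.inl (some (l, 3)),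
    Sum.inl (some (l, 4)), Sum.inr l]

abbrev H1 : SimpleGraph (VV ⊕ (Fin 4 × Bool)) := subGraph GS s1 t1

abbrev H2 : SimpleGraph (VV ⊕ Fin 4) := subGraph GS s2 t2

theorem ca_cyc (l : Fin 4) : IsCyc H1 (ca l) := by
  refine ⟨?_, ?_⟩
  · revert l; decide +kernel
  · intro k
    fin_cases k
    · exact sub_lr.2 (Or.inl rfl)
    · exact sub_rl.2 (Or.inr rfl)
    · exact (a2 l).symm
    · exact (a1 l).symm

theorem cb_cyc (l : Fin 4) : IsCyc H1 (cb l) := by
  refine ⟨?_, ?_⟩
  · revert l; decide +kernel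
  · intro k
    fin_cases k
    · exact sub_lr.2 (Or.inl rfl)
    · exact sub_rl.2 (Or.inr rfl)
    · exact (a4 l).symm
    · exact (a3 l).symm

theorem cc_cyc (l : Fin 4) : IsCyc H2 (cc l) := by
  refine ⟨?_, ?_⟩
  · revert l; decide +kernel
  · intro k
    fin_cases k
    · exact a1 l
    · exact a2 l
    · exact a3 l
    · exact a4 l
    · exact sub_lr.2 (Or.inr rfl)
    · exact sub_rl.2 (Or.inl rfl)

theorem leg_ca (l : Fin 4) (k : Fin 4) : leg Prod.fst (ca l k) = some l := by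
  fin_cases k <;> rfl

theorem leg_cb (l : Fin 4) (k : Fin 4) : leg Prod.fst (cb l k) = some l := by
  fin_cases k <;> rfl

theorem leg_cc (l : Fin 4) (k : Fin 6) : leg id (cc l k) = some l := by
  fin_cases k <;> rfl

theorem hf1 : ∀ e : Fin 4 × Bool, ∃ k : Fin 6, s1 e = some (e.1, k) := by
  rintro ⟨l, _ | _⟩
  · exact ⟨0, rfl⟩
  · exact ⟨2, rfl⟩

theorem hf2 : ∀ e : Fin 4, ∃ k : Fin 6, s2 e = some (id e, k) := fun _ => ⟨0, rfl⟩

/-- cycles on different legs: at most one winds around the centre -/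
theorem legs {E : Type} {s t : E → VV} {f : E → Fin 4} (hf : ∀ e, ∃ k : Fin 6, s e = some (f e, k))
    {ρ : VV ⊕ E → ℂ} (hS : SL (subGraph GS s t) ρ) {m : ℕ} [NeZero m]
    {c : Fin 4 → Fin m → VV ⊕ E} (hc : ∀ l, IsCyc (subGraph GS s t) (c l))
    (hl : ∀ l k, leg f (c l k) = some l) {l l' : Fin 4} (hll : l ≠ l') :
    Wd (ρ ∘ c l) (ρ (Sum.inl none)) = 0 ∨ Wd (ρ ∘ c l') (ρ (Sum.inl none)) = 0 := by
  apply hS.not_both (hc l) (hc l')
  · intro i j h
    have h1 := hl l i
    rw [h, hl l' j] at h1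
    exact hll (Option.some.inj h1).symm
  · intro j
    exact reach_any hf hll (hl l) _ (hl l' j)
  · intro i
    exact reach_any hf hll.symm (hl l') _ (hl l i)

/-- some leg is good for three kinds of cycles -/
theorem good_leg {A B C : Fin 4 → Prop} (hA : ∀ l l', l ≠ l' → A l ∨ A l')
    (hB : ∀ l l', l ≠ l' → B l ∨ B l') (hC : ∀ l l', l ≠ l' → C l ∨ C l') :
    ∃ l, A l ∧ B l ∧ C l := by
  by_contra hcon
  push Not at hcon
  have h : ∀ l, ∃ i : Fin 3, (i = 0 → ¬ A l) ∧ (i = 1 → ¬ B l) ∧ (i = 2 → ¬ C l) := by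
    intro l
    by_cases hA' : A l
    · by_cases hB' : B l
      · exact ⟨2, by simp, by simp, fun _ => hcon l hA' hB'⟩
      · exact ⟨1, by simp, fun _ => hB', by simp⟩
    · exact ⟨0, fun _ => hA', by simp, by simp⟩
  choose g hg using h
  obtain ⟨l, l', hll, hgg⟩ := Fintype.exists_ne_map_eq_of_card_lt g (by simp)
  have h1 := hg l
  have h2 := hg l'
  rw [← hgg] at h2
  generalize g l = i at h1 h2
  fin_cases i
  · exact (hA l l' hll).elim (h1.1 rfl) (h2.1 rfl)
  · exact (hB l l' hll).elim (h1.2.1 rfl) (h2.2.1 rfl)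
  · exact (hC l l' hll).elim (h1.2.2 rfl) (h2.2.2 rfl)

theorem next_lt {D : Drawing VV} {v a b c : VV} {x y z : ℂ} (ha : DirTo D v a x)
    (hb : DirTo D v b y) (hc : DirTo D v c z) (hx : x ≠ D.pos v) (hy : y ≠ D.pos v)
    (hz : z ≠ D.pos v) (hn : NF z (D.pos v) y)
    (h : ccw (D.dir v a) (D.dir v b) ≤ ccw (D.dir v a) (D.dir v c)) :
    ccw (x - D.pos v) (y - D.pos v) < ccw (x - D.pos v) (z - D.pos v) :=
  ccw_strict (sub_ne_zero.2 hx) (sub_ne_zero.2 hy) (sub_ne_zero.2 hz) (le_of_dir ha hb hc h)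
    (ccw_lt_of_nf hz hy hn)

theorem no_drawing (D : Drawing VV) (hD : D.IsSimultaneous R1 R2 0 1) : False := by
  obtain ⟨_, hp1, hp2, hr1, hr2, hk0, hk1⟩ := hD
  rw [inf_eq] at hk0 hk1
  have hS1 : SL H1 (rho D s1 t1) := by
    apply sl_of_drawing hp1 GS_le1 (fun v w h => hk0 v w h)
    · decide +kernel
    · decide +kernel
    · intro e
      apply hk1 (s1 e) (t1 e)
      · exact Or.inl (by clear * - e; revert e; decide +kernel)
      · clear * - e; revert e; decide +kernel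
    · decide +kernel
  have hS2 : SL H2 (rho D s2 t2) := by
    apply sl_of_drawing hp2 GS_le2 (fun v w h => hk0 v w h)
    · decide +kernel
    · decide +kernel
    · intro e
      apply hk1 (s2 e) (t2 e)
      · exact Or.inr (by clear * - e; revert e; decide +kernel)
      · clear * - e; revert e; decide +kernel
    · decide +kernel
  -- directions
  have dS : ∀ v w, GS.Adj v w → DirTo D v w (D.pos w) := by
    intro v w h
    have := (zero_bend (hp1.1 v w (GS_le1 h)) (hk0 v w h)).2.2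
    exact ⟨1, one_pos, by rw [this]; simp⟩
  have hG1 : ∀ e, G1.Adj (s1 e) (t1 e) := by decide +kernel
  have hG2 : ∀ e, G2.Adj (s2 e) (t2 e) := by decide +kernel
  have hl1 : ∀ e, (D.bends (s1 e) (t1 e)).length ≤ 1 := by
    intro e
    apply hk1 (s1 e) (t1 e)
    · exact Or.inl (hG1 e)
    · clear * - e; revert e; decide +kernel
  have hl2 : ∀ e, (D.bends (s2 e) (t2 e)).length ≤ 1 := by
    intro e
    apply hk1 (s2 e) (t2 e)
    · exact Or.inr (hG2 e)
    · clear * - e; revert e; decide +kernel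
  have dE1 : ∀ e, DirTo D (s1 e) (t1 e) (mid D (s1 e) (t1 e)) :=
    fun e => (one_bend (hp1.1 _ _ (hG1 e)) (hl1 e)).2.2.2.2.1
  have dE1' : ∀ e, DirTo D (t1 e) (s1 e) (mid D (s1 e) (t1 e)) :=
    fun e => (one_bend (hp1.1 _ _ (hG1 e)) (hl1 e)).2.2.2.2.2
  have dE2 : ∀ e, DirTo D (s2 e) (t2 e) (mid D (s2 e) (t2 e)) :=
    fun e => (one_bend (hp2.1 _ _ (hG2 e)) (hl2 e)).2.2.2.2.1
  have dE2' : ∀ e, DirTo D (t2 e) (s2 e) (mid D (s2 e) (t2 e)) :=
    fun e => (one_bend (hp2.1 _ _ (hG2 e)) (hl2 e)).2.2.2.2.2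
  obtain ⟨l, gA, gB, gC⟩ := good_leg (fun l l' h => legs hf1 hS1 ca_cyc leg_ca h)
    (fun l l' h => legs hf1 hS1 cb_cyc leg_cb h) (fun l l' h => legs hf2 hS2 cc_cyc leg_cc h)
  -- names of the points
  obtain ⟨O, hO⟩ : ∃ z, z = D.pos none := ⟨_, rfl⟩
  obtain ⟨p1, e1⟩ : ∃ z, z = D.pos (some (l, 0)) := ⟨_, rfl⟩
  obtain ⟨p2, e2⟩ : ∃ z, z = D.pos (some (l, 1)) := ⟨_, rfl⟩
  obtain ⟨p3, e3⟩ : ∃ z, z = D.pos (some (l, 2)) := ⟨_, rfl⟩
  obtain ⟨p4, e4⟩ : ∃ z, z = D.pos (some (l, 3)) := ⟨_, rfl⟩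
  obtain ⟨p5, e5⟩ : ∃ z, z = D.pos (some (l, 4)) := ⟨_, rfl⟩
  obtain ⟨p6, e6⟩ : ∃ z, z = D.pos (some (l, 5)) := ⟨_, rfl⟩
  obtain ⟨A, eA⟩ : ∃ z, z = mid D (some (l, 0)) (some (l, 2)) := ⟨_, rfl⟩
  obtain ⟨B, eB⟩ : ∃ z, z = mid D (some (l, 2)) (some (l, 4)) := ⟨_, rfl⟩
  obtain ⟨C, eC⟩ : ∃ z, z = mid D (some (l, 0)) (some (l, 4)) := ⟨_, rfl⟩
  -- adjacencies of the bends
  have bA1 : H1.Adj (Sum.inl (some (l, 0))) (Sum.inr (l, false)) := sub_lr.2 (Or.inl rfl)
  have bA3 : H1.Adj (Sum.inl (some (l, 2))) (Sum.inr (l, false)) := sub_lr.2 (Or.inr rfl)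
  have bB3 : H1.Adj (Sum.inl (some (l, 2))) (Sum.inr (l, true)) := sub_lr.2 (Or.inl rfl)
  have bB5 : H1.Adj (Sum.inl (some (l, 4))) (Sum.inr (l, true)) := sub_lr.2 (Or.inr rfl)
  have bC1 : H2.Adj (Sum.inl (some (l, 0))) (Sum.inr l) := sub_lr.2 (Or.inl rfl)
  have bC5 : H2.Adj (Sum.inl (some (l, 4))) (Sum.inr l) := sub_lr.2 (Or.inr rfl)
  -- distinct points
  have nO1 : O ≠ p1 := by rw [hO, e1]; exact hS1.ne _ _ (a0 l)
  have n12 : p1 ≠ p2 := by rw [e1, e2]; exact hS1.ne _ _ (a1 l)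
  have n23 : p2 ≠ p3 := by rw [e2, e3]; exact hS1.ne _ _ (a2 l)
  have n34 : p3 ≠ p4 := by rw [e3, e4]; exact hS1.ne _ _ (a3 l)
  have n45 : p4 ≠ p5 := by rw [e4, e5]; exact hS1.ne _ _ (a4 l)
  have n56 : p5 ≠ p6 := by rw [e5, e6]; exact hS1.ne _ _ (a5 l)
  have n1A : p1 ≠ A := by rw [e1, eA]; exact hS1.ne _ _ bA1
  have n3A : p3 ≠ A := by rw [e3, eA]; exact hS1.ne _ _ bA3
  have n3B : p3 ≠ B := by rw [e3, eB]; exact hS1.ne _ _ bB3
  have n5B : p5 ≠ B := by rw [e5, eB]; exact hS1.ne _ _ bB5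
  have n1C : p1 ≠ C := by rw [e1, eC]; exact hS2.ne _ _ bC1
  have n5C : p5 ≠ C := by rw [e5, eC]; exact hS2.ne _ _ bC5
  -- directions on the leg
  have d1O : DirTo D (some (l, 0)) none O := by
    rw [hO]; exact dS _ _ (by clear * - l; revert l; decide +kernel)
  have d12 : DirTo D (some (l, 0)) (some (l, 1)) p2 := by
    rw [e2]; exact dS _ _ (by clear * - l; revert l; decide +kernel)
  have d32 : DirTo D (some (l, 2)) (some (l, 1)) p2 := by
    rw [e2]; exact dS _ _ (by clear * - l; revert l; decide +kernel)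
  have d34 : DirTo D (some (l, 2)) (some (l, 3)) p4 := by
    rw [e4]; exact dS _ _ (by clear * - l; revert l; decide +kernel)
  have d54 : DirTo D (some (l, 4)) (some (l, 3)) p4 := by
    rw [e4]; exact dS _ _ (by clear * - l; revert l; decide +kernel)
  have d56 : DirTo D (some (l, 4)) (some (l, 5)) p6 := by
    rw [e6]; exact dS _ _ (by clear * - l; revert l; decide +kernel)
  have d13 : DirTo D (some (l, 0)) (some (l, 2)) A := by rw [eA]; exact dE1 (l, false)
  have d31 : DirTo D (some (l, 2)) (some (l, 0)) A := by rw [eA]; exact dE1' (l, false)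
  have d35 : DirTo D (some (l, 2)) (some (l, 4)) B := by rw [eB]; exact dE1 (l, true)
  have d53 : DirTo D (some (l, 4)) (some (l, 2)) B := by rw [eB]; exact dE1' (l, true)
  have d15 : DirTo D (some (l, 0)) (some (l, 4)) C := by rw [eC]; exact dE2 l
  have d51 : DirTo D (some (l, 4)) (some (l, 0)) C := by rw [eC]; exact dE2' l
  -- first cycle
  have RA : ccw (A - p1) (p2 - p1) < ccw (A - p1) (O - p1) := by
    have h := hr1 (some (l, 0)) (some (l, 2)) none (by clear * - l; revert l; decide +kernel)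
      (by clear * - l; revert l; decide +kernel)
    have hnx : R1.next (some (l, 0)) (some (l, 2)) = some (l, 1) := by clear * - l; revert l; decide +kernel
    rw [hnx] at h
    have hn : NF O p1 p2 := by
      rw [hO, e1, e2]; exact hS1.nf (a0 l).symm (a1 l) (by simp)
    rw [e1] at n1A n12 nO1 hn ⊢
    exact next_lt d13 d12 d1O n1A.symm n12.symm nO1 hn h
  have SA := hS1.sum4 (ca_cyc l) (z := Sum.inl none) (a0 l).symm
    (by intro k h; have := leg_ca l k; rw [h] at this; simp [leg] at this)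
    (by
      change ccw (mid D (some (l, 0)) (some (l, 2)) - D.pos (some (l, 0)))
          (D.pos (some (l, 1)) - D.pos (some (l, 0))) <
        ccw (mid D (some (l, 0)) (some (l, 2)) - D.pos (some (l, 0)))
          (D.pos none - D.pos (some (l, 0)))
      rw [← eA, ← e1, ← e2, ← hO]
      exact RA) gA
  change ccw (mid D (some (l, 0)) (some (l, 2)) - D.pos (some (l, 0)))
      (D.pos (some (l, 1)) - D.pos (some (l, 0))) +
    ccw (D.pos (some (l, 2)) - mid D (some (l, 0)) (some (l, 2)))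
      (D.pos (some (l, 0)) - mid D (some (l, 0)) (some (l, 2))) +
    ccw (D.pos (some (l, 1)) - D.pos (some (l, 2)))
      (mid D (some (l, 0)) (some (l, 2)) - D.pos (some (l, 2))) +
    ccw (D.pos (some (l, 0)) - D.pos (some (l, 1)))
      (D.pos (some (l, 2)) - D.pos (some (l, 1))) = 2 * π at SA
  rw [← eA, ← e1, ← e2, ← e3] at SA
  have QA : ccw (p4 - p3) (A - p3) < ccw (p4 - p3) (p2 - p3) := by
    have h := hr1 (some (l, 2)) (some (l, 3)) (some (l, 1)) (by clear * - l; revert l; decide +kernel)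
      (by clear * - l; revert l; decide +kernel)
    have hnx : R1.next (some (l, 2)) (some (l, 3)) = some (l, 0) := by clear * - l; revert l; decide +kernel
    rw [hnx] at h
    have hn : NF p2 p3 A := by
      rw [e2, e3, eA]; exact hS1.nf (a2 l).symm bA3 (by simp)
    rw [e3] at n34 n3A n23 hn ⊢
    exact next_lt d34 d31 d32 n34.symm n3A.symm n23 hn h
  have nf3 : NF p2 p3 p4 := by
    rw [e2, e3, e4]; exact hS1.nf (a2 l).symm (a3 l) (by simp)
  have nf3A : NF p2 p3 A := by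
    rw [e2, e3, eA]; exact hS1.nf (a2 l).symm bA3 (by simp)
  have u2 : p2 - p3 ≠ 0 := sub_ne_zero.2 n23
  have u4 : p4 - p3 ≠ 0 := sub_ne_zero.2 n34.symm
  have uA : A - p3 ≠ 0 := sub_ne_zero.2 n3A.symm
  have f1 := ccw_add u4 uA u2 QA
  have f2 := ccw_symm u4 u2 (ccw_lt_of_nf n23 n34.symm nf3)
  have f3 := ccw_symm uA u2 (ccw_lt_of_nf n23 n3A.symm nf3A)
  have f4 := ccw_pos (p4 - p3) (A - p3)
  have i1 := ccw_pos (A - p1) (p2 - p1)
  have i2 := ccw_pos (p3 - A) (p1 - A)
  have KA : ccw (p1 - p2) (p3 - p2) + ccw (p2 - p3) (p4 - p3) < 2 * π := by linarith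
  -- second cycle
  have RB : ccw (B - p3) (p4 - p3) < ccw (B - p3) (p2 - p3) := by
    have h := hr1 (some (l, 2)) (some (l, 4)) (some (l, 1)) (by clear * - l; revert l; decide +kernel)
      (by clear * - l; revert l; decide +kernel)
    have hnx : R1.next (some (l, 2)) (some (l, 4)) = some (l, 3) := by clear * - l; revert l; decide +kernel
    rw [hnx] at h
    have hn : NF p2 p3 p4 := nf3
    rw [e3] at n3B n34 n23 hn ⊢
    exact next_lt d35 d34 d32 n3B.symm n34.symm n23 hn h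
  have gB' : Wd (rho D s1 t1 ∘ cb l) (rho D s1 t1 (Sum.inl (some (l, 1)))) = 0 := by
    rw [← gB]
    symm
    apply hS1.wd_reach (cb_cyc l)
    have r1 : Step H1 (cb l) (Sum.inl none) (Sum.inl (some (l, 0))) :=
      ⟨a0 l, by clear * - l; revert l; decide +kernel, by clear * - l; revert l; decide +kernel⟩
    have r2 : Step H1 (cb l) (Sum.inl (some (l, 0))) (Sum.inl (some (l, 1))) :=
      ⟨a1 l, by clear * - l; revert l; decide +kernel, by clear * - l; revert l; decide +kernel⟩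
    exact (ReflTransGen.single r1).tail r2
  have SB := hS1.sum4 (cb_cyc l) (z := Sum.inl (some (l, 1))) (a2 l).symm
    (by clear * - l; revert l; decide +kernel)
    (by
      change ccw (mid D (some (l, 2)) (some (l, 4)) - D.pos (some (l, 2)))
          (D.pos (some (l, 3)) - D.pos (some (l, 2))) <
        ccw (mid D (some (l, 2)) (some (l, 4)) - D.pos (some (l, 2)))
          (D.pos (some (l, 1)) - D.pos (some (l, 2)))
      rw [← eB, ← e3, ← e4, ← e2]
      exact RB) gB'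
  change ccw (mid D (some (l, 2)) (some (l, 4)) - D.pos (some (l, 2)))
      (D.pos (some (l, 3)) - D.pos (some (l, 2))) +
    ccw (D.pos (some (l, 4)) - mid D (some (l, 2)) (some (l, 4)))
      (D.pos (some (l, 2)) - mid D (some (l, 2)) (some (l, 4))) +
    ccw (D.pos (some (l, 3)) - D.pos (some (l, 4)))
      (mid D (some (l, 2)) (some (l, 4)) - D.pos (some (l, 4))) +
    ccw (D.pos (some (l, 2)) - D.pos (some (l, 3)))
      (D.pos (some (l, 4)) - D.pos (some (l, 3))) = 2 * π at SB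
  rw [← eB, ← e3, ← e4, ← e5] at SB
  have QB : ccw (p6 - p5) (B - p5) < ccw (p6 - p5) (p4 - p5) := by
    have h := hr1 (some (l, 4)) (some (l, 5)) (some (l, 3)) (by clear * - l; revert l; decide +kernel)
      (by clear * - l; revert l; decide +kernel)
    have hnx : R1.next (some (l, 4)) (some (l, 5)) = some (l, 2) := by clear * - l; revert l; decide +kernel
    rw [hnx] at h
    have hn : NF p4 p5 B := by
      rw [e4, e5, eB]; exact hS1.nf (a4 l).symm bB5 (by simp)
    rw [e5] at n56 n5B n45 hn ⊢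
    exact next_lt d56 d53 d54 n56.symm n5B.symm n45 hn h
  have nf5 : NF p4 p5 p6 := by
    rw [e4, e5, e6]; exact hS1.nf (a4 l).symm (a5 l) (by simp)
  have nf5B : NF p4 p5 B := by
    rw [e4, e5, eB]; exact hS1.nf (a4 l).symm bB5 (by simp)
  have w4 : p4 - p5 ≠ 0 := sub_ne_zero.2 n45
  have w6 : p6 - p5 ≠ 0 := sub_ne_zero.2 n56.symm
  have wB : B - p5 ≠ 0 := sub_ne_zero.2 n5B.symm
  have g1 := ccw_add w6 wB w4 QB
  have g2 := ccw_symm w6 w4 (ccw_lt_of_nf n45 n56.symm nf5)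
  have g3 := ccw_symm wB w4 (ccw_lt_of_nf n45 n5B.symm nf5B)
  have g4 := ccw_pos (p6 - p5) (B - p5)
  have j1 := ccw_pos (B - p3) (p4 - p3)
  have j2 := ccw_pos (p5 - B) (p3 - B)
  have KB : ccw (p3 - p4) (p5 - p4) + ccw (p4 - p5) (p6 - p5) < 2 * π := by linarith
  -- third cycle
  have RC : ccw (p2 - p1) (C - p1) < ccw (p2 - p1) (O - p1) := by
    have h := hr2 (some (l, 0)) (some (l, 1)) none (by clear * - l; revert l; decide +kernel)
      (by clear * - l; revert l; decide +kernel)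
    have hnx : R2.next (some (l, 0)) (some (l, 1)) = some (l, 4) := by clear * - l; revert l; decide +kernel
    rw [hnx] at h
    have hn : NF O p1 C := by
      rw [hO, e1, eC]; exact hS2.nf (a0 l).symm bC1 (by simp)
    rw [e1] at n12 n1C nO1 hn ⊢
    exact next_lt d12 d15 d1O n12.symm n1C.symm nO1 hn h
  have SC := hS2.sum6 (cc_cyc l) (z := Sum.inl none) (a0 l).symm
    (by intro k h; have := leg_cc l k; rw [h] at this; simp [leg] at this)
    (by
      change ccw (D.pos (some (l, 1)) - D.pos (some (l, 0)))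
          (mid D (some (l, 0)) (some (l, 4)) - D.pos (some (l, 0))) <
        ccw (D.pos (some (l, 1)) - D.pos (some (l, 0))) (D.pos none - D.pos (some (l, 0)))
      rw [← eC, ← e1, ← e2, ← hO]
      exact RC) gC
  change ccw (D.pos (some (l, 1)) - D.pos (some (l, 0)))
      (mid D (some (l, 0)) (some (l, 4)) - D.pos (some (l, 0))) +
    ccw (D.pos (some (l, 2)) - D.pos (some (l, 1))) (D.pos (some (l, 0)) - D.pos (some (l, 1))) +
    ccw (D.pos (some (l, 3)) - D.pos (some (l, 2))) (D.pos (some (l, 1)) - D.pos (some (l, 2))) +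
    ccw (D.pos (some (l, 4)) - D.pos (some (l, 3))) (D.pos (some (l, 2)) - D.pos (some (l, 3))) +
    ccw (mid D (some (l, 0)) (some (l, 4)) - D.pos (some (l, 4)))
      (D.pos (some (l, 3)) - D.pos (some (l, 4))) +
    ccw (D.pos (some (l, 0)) - mid D (some (l, 0)) (some (l, 4)))
      (D.pos (some (l, 4)) - mid D (some (l, 0)) (some (l, 4))) = 4 * π at SC
  rw [← eC, ← e1, ← e2, ← e3, ← e4, ← e5] at SC
  have QC : ccw (C - p5) (p6 - p5) < ccw (C - p5) (p4 - p5) := by
    have h := hr2 (some (l, 4)) (some (l, 0)) (some (l, 3)) (by clear * - l; revert l; decide +kernel)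
      (by clear * - l; revert l; decide +kernel)
    have hnx : R2.next (some (l, 4)) (some (l, 0)) = some (l, 5) := by clear * - l; revert l; decide +kernel
    rw [hnx] at h
    have hn : NF p4 p5 p6 := nf5
    rw [e5] at n5C n56 n45 hn ⊢
    exact next_lt d51 d56 d54 n5C.symm n56.symm n45 hn h
  have wC : C - p5 ≠ 0 := sub_ne_zero.2 n5C.symm
  have h1 := ccw_add wC w6 w4 QC
  have h2 := ccw_pos (C - p5) (p6 - p5)
  have nf2 : NF p1 p2 p3 := by
    rw [e1, e2, e3]; exact hS1.nf (a1 l).symm (a2 l) (by simp)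
  have nf4 : NF p3 p4 p5 := by
    rw [e3, e4, e5]; exact hS1.nf (a3 l).symm (a4 l) (by simp)
  have v1 : p1 - p2 ≠ 0 := sub_ne_zero.2 n12
  have v3 : p3 - p2 ≠ 0 := sub_ne_zero.2 n23.symm
  have y3 : p3 - p4 ≠ 0 := sub_ne_zero.2 n34
  have y5 : p5 - p4 ≠ 0 := sub_ne_zero.2 n45.symm
  have k2 := ccw_symm v3 v1 (ccw_lt_of_nf n12 n23.symm nf2)
  have k4 := ccw_symm y5 y3 (ccw_lt_of_nf n34 n45.symm nf4)
  have m1 := ccw_pos (p2 - p1) (C - p1)
  have m2 := ccw_pos (p1 - C) (p5 - C)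
  linarith

theorem main : ∃ (V : Type) (_ : Fintype V) (G₁ G₂ : SimpleGraph V) (R₁ : Rot G₁) (R₂ : Rot G₂),
    (G₁ ⊓ G₂).IsTree ∧ R₁.IsPlanar ∧ R₂.IsPlanar ∧ Compatible R₁ R₂ ∧
      ¬ ∃ D : Drawing V, D.IsSimultaneous R₁ R₂ 0 1 :=
  ⟨VV, inferInstance, G1, G2, R1, R2, tree_inf, planar1, planar2, compat,
    fun ⟨D, hD⟩ => no_drawing D hD⟩

end Pool.Agent.Helper50Bend
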